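import Mathlib

/-!
# Definitions for the results on definable coarsenings of valuation rings
-/

set_option autoImplicit false

namespace Pool.Agent.K4H89.NV

/-- The valuation ring `O` of `K` is definable with parameters in the language of rings. -/
def Definable {K : Type} [Field K] [FirstOrder.Ring.CompatibleRing K] (O : ValuationSubring K) :
    Prop :=
  ∃ (p : ℕ) (ψ : FirstOrder.Language.ring.Formula (Fin 1 ⊕ Fin p)) (c : Fin p → K),
    ∀ x : K, x ∈ O ↔ ψ.Realize (Sum.elim (fun _ => x) c)

/-- The field `k` has a separable extension of degree `d`. -/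
def HasSepExt (k : Type) [Field k] (d : ℕ) : Prop :=
  ∃ (L : Type) (_ : Field L) (_ : Algebra k L), Algebra.IsSeparable k L ∧ Module.finrank k L = d

/-- The value of `t` is not divisible by `d` in the value group of `O` (which is written
multiplicatively: the value is not a `d`-th power). -/
def NotDivisible {K : Type} [Field K] (O : ValuationSubring K) (d : ℕ) (t : K) : Prop :=
  ∀ y : K, O.valuation t ≠ O.valuation y ^ d

/-- The valuation ring `O` is branching at `ℓ`: its value group `Γ` is not `ℓ`-divisible, and its
residue field has a separable extension of finite degree divisible by `ℓ` or `Γ / ℓ Γ` is not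
cyclic. (If `Γ / ℓ Γ` is not cyclic, then `Γ` is not `ℓ`-divisible.) -/
def Branching {K : Type} [Field K] (O : ValuationSubring K) (ℓ : ℕ) : Prop :=
  (∃ t : K, NotDivisible O ℓ t) ∧
  ((∃ d : ℕ, d ≠ 0 ∧ ℓ ∣ d ∧ HasSepExt (IsLocalRing.ResidueField O) d) ∨
    ¬ ∃ a : K, a ≠ 0 ∧ ∀ b : K, ∃ (c : K) (i : ℕ),
      O.valuation b = O.valuation c ^ ℓ * O.valuation a ^ i)

end Pool.Agent.K4H89.NV
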