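import Pool.Agent.K4H89.NV.Bad2

/-!
# Coarsenings of a valuation ring
-/

set_option autoImplicit false

namespace Pool.Agent.K4H89.NV

open Polynomial Pool.Agent.R492.DV Pool.Agent.TH686.NF

section

variable {K : Type} [Field K]

/-- A union of a chain of coarsenings. -/
theorem exists_union (O : ValuationSubring K) (C : Set (ValuationSubring K)) (hC : C.Nonempty)
    (hO : ∀ A ∈ C, O ≤ A) (hch : IsChain (· ≤ ·) C) :
    ∃ U : ValuationSubring K, ∀ x, x ∈ U ↔ ∃ A ∈ C, x ∈ A := by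
  obtain ⟨A0, hA0⟩ := hC
  refine ⟨mkOver O {x | ∃ A ∈ C, x ∈ A} (fun x hx => ⟨A0, hA0, hO A0 hA0 hx⟩) ?_ ?_,
    fun x => Iff.rfl⟩
  · rintro x ⟨A, hA, hx⟩ y ⟨B, hB, hy⟩
    rcases hch.total hA hB with h | h
    · exact ⟨B, hB, B.add_mem _ _ (h hx) hy⟩
    · exact ⟨A, hA, A.add_mem _ _ hx (h hy)⟩
  · rintro x ⟨A, hA, hx⟩ y ⟨B, hB, hy⟩
    rcases hch.total hA hB with h | h
    · exact ⟨B, hB, B.mul_mem _ _ (h hx) hy⟩
    · exact ⟨A, hA, A.mul_mem _ _ hx (h hy)⟩

/-- A largest coarsening with a property which is preserved by unions of chains. -/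
theorem exists_largest (O : ValuationSubring K) (p : ValuationSubring K → Prop) (hp : p O)
    (hun : ∀ (C : Set (ValuationSubring K)) (U : ValuationSubring K), C.Nonempty →
      (∀ A ∈ C, O ≤ A ∧ p A) → IsChain (· ≤ ·) C → (∀ x, x ∈ U ↔ ∃ A ∈ C, x ∈ A) → p U) :
    ∃ O' : ValuationSubring K, O ≤ O' ∧ p O' ∧ ∀ O'', O' < O'' → ¬ p O'' := by
  obtain ⟨m, hm, hmax⟩ := zorn_le_nonempty₀ {A : ValuationSubring K | O ≤ A ∧ p A} (by
    intro C hC hch y hy
    obtain ⟨U, hU⟩ := exists_union O C ⟨y, hy⟩ (fun A hA => (hC hA).1) hch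
    refine ⟨U, ⟨fun x hx => (hU x).2 ⟨y, hy, (hC hy).1 hx⟩, hun C U ⟨y, hy⟩ (fun A hA => hC hA) hch
      hU⟩, fun z hz x hx => (hU x).2 ⟨z, hz, hx⟩⟩) O ⟨le_rfl, hp⟩
  refine ⟨m, hm, hmax.prop.2, fun O'' hlt h => ?_⟩
  have h1 := hmax.le_of_ge (y := O'') ⟨hm.trans hlt.le, h⟩ hlt.le
  exact absurd hlt (not_lt_of_ge h1)

/-- The largest coarsening in which the value of `t` is not divisible by `d`. -/
theorem exists_largest_nd (O : ValuationSubring K) {d : ℕ} {t : K} (h : NdC d t (O : Set K)) :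
    ∃ O' : ValuationSubring K, O ≤ O' ∧ NdC d t (O' : Set K) ∧
      ∀ O'', O' < O'' → ¬ NdC d t (O'' : Set K) := by
  refine exists_largest O (fun A => NdC d t (A : Set K)) h ?_
  intro C U hC hCp hch hU y w h1 h2
  obtain ⟨A, hA, h3⟩ := (hU _).1 h1
  obtain ⟨B, hB, h4⟩ := (hU _).1 h2
  rcases hch.total hA hB with hAB | hAB
  · exact (hCp B hB).2 y w (hAB h3) h4
  · exact (hCp A hA).2 y w h3 (hAB h4)

/-- regularity of the largest coarsening -/
theorem regC_of_largest (O : ValuationSubring K) {d : ℕ} (hd : 1 ≤ d) {t : K}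
    (h : ∀ O'', O < O'' → ¬ NdC d t (O'' : Set K)) : RegC d t (O : Set K) := by
  intro x hx hx0 hxn
  have hxi : x⁻¹ ∉ O := (nonunit_iff hx0).1 hxn
  have hlt : O < locRing O x hx := by
    refine lt_of_le_of_ne le_locRing fun heq => hxi ?_
    rw [heq]
    exact ⟨1, by rw [pow_one, mul_inv_cancel₀ hx0]; exact O.one_mem⟩
  have h1 := h _ hlt
  unfold NdC at h1
  push Not at h1
  obtain ⟨y, w, h2, h3, h4⟩ := h1
  obtain ⟨n, hn⟩ := mem_locRing.1 h2
  obtain ⟨m, hm⟩ := mem_locRing.1 h3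
  set u := t * y ^ d with hu
  have hu0 : u ≠ 0 := left_ne_zero_of_mul_eq_one h4
  have hw : w = u⁻¹ := eq_inv_of_mul_eq_one_right h4
  -- the exponents `k` with `u * x ^ (k * d) ∈ O`
  have hdz : (1 : ℤ) ≤ d := by exact_mod_cast hd
  have hzx : ∀ k : ℤ, 0 ≤ k → x ^ k ∈ O := by
    intro k hk
    obtain ⟨j, rfl⟩ := Int.eq_ofNat_of_zero_le hk
    rw [zpow_natCast]
    exact pow_mem hx j
  have hneg : ∀ k : ℤ, k < 0 → x ^ k ∉ O := by
    intro k hk hmem
    obtain ⟨j, hj⟩ : ∃ j : ℕ, k = -((j : ℤ) + 1) := ⟨(-k - 1).toNat, by omega⟩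
    apply hxi
    have h5 : x ^ k * x ^ j = x⁻¹ := by
      rw [hj, ← zpow_natCast x j, ← zpow_add₀ hx0]
      have : -((j : ℤ) + 1) + j = -1 := by ring
      rw [this, zpow_neg_one]
    rw [← h5]
    exact O.mul_mem _ _ hmem (pow_mem hx j)
  obtain ⟨k, hk1, hk2⟩ := Int.exists_least_of_bdd (P := fun k : ℤ => u * x ^ (k * d) ∈ O)
    ⟨-(m : ℤ), fun k hk => by
      by_contra hcon
      push Not at hcon
      have h6 : x ^ ((m : ℤ) + k * d) ∈ O := by
        have h7 : x ^ ((m : ℤ) + k * d) = (x ^ m * w) * (u * x ^ (k * d)) := by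
          rw [zpow_add₀ hx0, zpow_natCast, hw]
          field_simp
        rw [h7]
        exact O.mul_mem _ _ hm hk
      refine hneg _ ?_ h6
      nlinarith⟩
    ⟨(n : ℤ), by
      have h7 : u * x ^ ((n : ℤ) * d) = (x ^ n * u) * x ^ ((n : ℤ) * d - n) := by
        rw [zpow_sub₀ hx0, zpow_natCast]
        field_simp
      rw [h7]
      refine O.mul_mem _ _ hn (hzx _ ?_)
      nlinarith [Int.natCast_nonneg n]⟩
  have hk3 : u * x ^ ((k - 1) * d) ∉ O := fun h6 => by
    have := hk2 _ h6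
    omega
  refine ⟨y * x ^ k, x ^ d * (u * x ^ (k * d))⁻¹, ?_, ?_, ?_⟩
  · rcases O.mem_or_inv_mem (u * x ^ ((k - 1) * d)) with h6 | h6
    · exact (hk3 h6).elim
    · have e1 : x ^ d * (u * x ^ (k * d))⁻¹ = (u * x ^ ((k - 1) * d))⁻¹ := by
        have e2 : (k - 1) * (d : ℤ) = k * d - d := by ring
        rw [e2, zpow_sub₀ hx0, zpow_natCast]
        field_simp
      rw [e1]
      exact h6
  · have e1 : t * (y * x ^ k) ^ d = u * x ^ (k * d) := by
      rw [mul_pow, ← zpow_natCast (x ^ k) d, ← zpow_mul, ← mul_assoc]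
    rw [e1]
    exact hk1
  · have e1 : t * (y * x ^ k) ^ d = u * x ^ (k * d) := by
      rw [mul_pow, ← zpow_natCast (x ^ k) d, ← zpow_mul, ← mul_assoc]
    rw [e1]
    have h8 : u * x ^ (k * d) ≠ 0 := mul_ne_zero hu0 (zpow_ne_zero _ hx0)
    field_simp

/-- the map to the image in the residue field of a coarsening -/
noncomputable def toImg (R P : ValuationSubring K) (hRP : R ≤ P) : R →+* img R P hRP where
  toFun x := ⟨IsLocalRing.residue P ⟨x, hRP x.2⟩, mem_img.2 x.2⟩
  map_one' := Subtype.ext (map_one (IsLocalRing.residue P))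
  map_mul' x y := Subtype.ext (map_mul (IsLocalRing.residue P) ⟨x, hRP x.2⟩ ⟨y, hRP y.2⟩)
  map_zero' := Subtype.ext (map_zero (IsLocalRing.residue P))
  map_add' x y := Subtype.ext (map_add (IsLocalRing.residue P) ⟨x, hRP x.2⟩ ⟨y, hRP y.2⟩)

instance toImg_local (R P : ValuationSubring K) (hRP : R ≤ P) : IsLocalHom (toImg R P hRP) where
  map_nonunit x hx := by
    obtain ⟨⟨c, hc⟩, h1⟩ := hx.exists_right_inv
    obtain ⟨y, hy, hyR, rfl⟩ := hc
    have h2 : IsLocalRing.residue P ⟨x, hRP x.2⟩ * IsLocalRing.residue P ⟨y, hy⟩ = 1 :=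
      congrArg Subtype.val h1
    have h3 : IsLocalRing.residue P ⟨x, hRP x.2⟩ ≠ 0 := left_ne_zero_of_mul_eq_one h2
    have hx0 : (x : K) ≠ 0 := by
      intro h0
      apply h3
      have : (⟨x, hRP x.2⟩ : P) = 0 := Subtype.ext h0
      rw [this, map_zero]
    have hxi := inv_mem_of_residue_ne_zero h3
    have h4 : IsLocalRing.residue P ⟨(x : K)⁻¹, hxi⟩ ∈ img R P hRP := by
      rw [← residue_inv (hRP x.2) hxi hx0, ← eq_inv_of_mul_eq_one_right h2]
      exact mem_img.2 hyR
    exact IsUnit.of_mul_eq_one ⟨(x : K)⁻¹, mem_img.1 h4⟩ (Subtype.ext (mul_inv_cancel₀ hx0))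

theorem toImg_surj (R P : ValuationSubring K) (hRP : R ≤ P) :
    Function.Bijective (IsLocalRing.ResidueField.map (toImg R P hRP)) := by
  refine ⟨RingHom.injective _, fun c => ?_⟩
  obtain ⟨⟨c, hc⟩, rfl⟩ := IsLocalRing.residue_surjective c
  obtain ⟨x, hx, hxR, rfl⟩ := hc
  refine ⟨IsLocalRing.residue R ⟨x, hxR⟩, ?_⟩
  rw [IsLocalRing.ResidueField.map_residue]
  rfl

/-- A separable extension of the residue field gives one of the residue field of a coarsening. -/
theorem hasExt_coarse {O O' : ValuationSubring K} (hle : O ≤ O') {d : ℕ} (hd : 2 ≤ d)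
    (h : HasExt d O) : HasExt d O' := by
  obtain ⟨L, _, _, hsep, hfin⟩ := h
  have : FiniteDimensional (IsLocalRing.ResidueField O) L :=
    FiniteDimensional.of_finrank_pos (by omega)
  obtain ⟨α, hα⟩ := Field.exists_primitive_element (IsLocalRing.ResidueField O) L
  have hint : IsIntegral (IsLocalRing.ResidueField O) α := Algebra.IsIntegral.isIntegral α
  have hdeg : (minpoly (IsLocalRing.ResidueField O) α).natDegree = d := by
    rw [(Field.primitive_element_iff_minpoly_natDegree_eq _ α).1 hα, hfin]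
  have hirr := minpoly.irreducible hint
  have hmon := minpoly.monic hint
  have hs : (minpoly (IsLocalRing.ResidueField O) α).Separable := hsep.isSeparable' α
  set f := minpoly (IsLocalRing.ResidueField O) α with hf
  set φ := IsLocalRing.ResidueField.map (toImg O O' hle) with hφ
  have hbij := toImg_surj O O' hle
  set e := RingEquiv.ofBijective _ hbij with he
  have h2 : f.map φ = Polynomial.mapEquiv e f := rfl
  have hirr2 : Irreducible (f.map φ) := by
    rw [h2]
    exact (MulEquiv.irreducible_iff (Polynomial.mapEquiv e)).2 hirr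
  have hs2 : (f.map φ).Separable := hs.map
  have hmon2 : (f.map φ).Monic := hmon.map _
  have hl : f.map φ ∈ lifts (IsLocalRing.residue (img O O' hle)) := by
    rw [lifts_iff_coeff_lifts]
    intro n
    exact IsLocalRing.residue_surjective _
  obtain ⟨g, hg1, hg2, hg3⟩ := lifts_and_natDegree_eq_and_monic hl hmon2
  have hgi : Irreducible g := Polynomial.Monic.irreducible_of_irreducible_map
    (IsLocalRing.residue (img O O' hle)) g hg3 (by rw [hg1]; exact hirr2)
  have hGi : Irreducible (g.map (algebraMap (img O O' hle) (IsLocalRing.ResidueField O'))) :=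
    hg3.irreducible_iff_irreducible_map_fraction_map.1 hgi
  have hGs : (g.map (algebraMap (img O O' hle) (IsLocalRing.ResidueField O'))).Separable := by
    rw [separable_iff_derivative_ne_zero hGi]
    intro h0
    rw [derivative_map] at h0
    have hinj : Function.Injective (algebraMap (img O O' hle) (IsLocalRing.ResidueField O')) :=
      Subtype.val_injective
    have h1 : derivative g = 0 := (Polynomial.map_eq_zero_iff hinj).1 h0
    have h3 : derivative (f.map φ) = 0 := by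
      rw [← hg1, derivative_map, h1, Polynomial.map_zero]
    rw [separable_iff_derivative_ne_zero hirr2] at hs2
    exact hs2 h3
  obtain ⟨L', i1, i2, h3, h4⟩ := exists_ext_poly _ _ hGi (hg3.map _) hGs
  refine ⟨L', i1, i2, h3, ?_⟩
  rw [h4, hg3.natDegree_map, hg2, hmon.natDegree_map, hdeg]

/-- A field with a valuation whose value group is not `ℓ`-divisible has a separable extension of
degree `ℓ`. -/
theorem hasExt_of_val {k : Type} [Field k] (W : ValuationSubring k) {ℓ : ℕ} (hℓ : ℓ.Prime) {a : k}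
    (ha0 : a ≠ 0) (ha1 : W.valuation a < 1) (ha : ∀ c : k, W.valuation a ≠ W.valuation c ^ ℓ) :
    ∃ (L : Type) (_ : Field L) (_ : Algebra k L), Algebra.IsSeparable k L ∧
      Module.finrank k L = ℓ := by
  obtain ⟨B, hB⟩ := exists_extension (algebraMap k (AlgebraicClosure k)) W
  have hle : ∀ x y : k, x ≠ 0 → y ≠ 0 → B.valuation (algebraMap k (AlgebraicClosure k) x) ≤
      B.valuation (algebraMap k (AlgebraicClosure k) y) → W.valuation x ≤ W.valuation y := by
    intro x y hx hy hxy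
    have hy' : B.valuation (algebraMap k (AlgebraicClosure k) y) ≠ 0 :=
      (Valuation.ne_zero_iff _).2 (by rwa [Ne, map_eq_zero])
    have hVy : W.valuation y ≠ 0 := (Valuation.ne_zero_iff _).2 hy
    have h1 : algebraMap k (AlgebraicClosure k) (x / y) ∈ B := by
      rw [← ValuationSubring.valuation_le_one_iff, map_div₀, map_div₀]
      exact (div_le_one₀ (zero_lt_iff.2 hy')).2 hxy
    rw [hB, ← ValuationSubring.valuation_le_one_iff, map_div₀] at h1
    exact (div_le_one₀ (zero_lt_iff.2 hVy)).1 h1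
  have hb1 : B.valuation (algebraMap k (AlgebraicClosure k) a) < 1 := by
    by_contra hcon
    rw [not_lt] at hcon
    have h1 := hle 1 a one_ne_zero ha0 (by rw [map_one, map_one]; exact hcon)
    rw [map_one] at h1
    exact absurd ha1 (not_lt.2 h1)
  obtain ⟨hm, hdeg, hirr⟩ := irr_aux B.valuation hℓ ha0 hb1 (fun c hc => by
    have hc0 : c ≠ 0 := by
      rintro rfl
      rw [map_zero, map_zero, zero_pow hℓ.ne_zero, B.valuation.zero_iff, map_eq_zero] at hc
      exact ha0 hc
    rw [← map_pow, ← map_pow] at hc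
    apply ha c
    rw [← map_pow]
    exact le_antisymm (hle _ _ ha0 (pow_ne_zero _ hc0) hc.le) (hle _ _ (pow_ne_zero _ hc0) ha0 hc.ge))
  have hsep : (X ^ ℓ + C a * X + C a : k[X]).Separable := by
    rw [separable_iff_derivative_ne_zero hirr]
    intro h0
    have h1 := congrArg (fun g => coeff g 0) h0
    simp only [coeff_derivative, coeff_zero] at h1
    simp only [coeff_add, coeff_X_pow, coeff_C_mul, coeff_X, coeff_C] at h1
    rw [if_neg (by have := hℓ.two_le; omega)] at h1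
    simp at h1
    exact ha0 h1
  obtain ⟨L, i1, i2, h1, h2⟩ := exists_ext_poly k _ hirr hm hsep
  exact ⟨L, i1, i2, h1, h2.trans hdeg⟩

/-- The residue field of a coarsening has a separable extension of degree `ℓ` if some unit of the
coarsening has a value not divisible by `ℓ`. -/
theorem hasExt_of_unit {O O' : ValuationSubring K} (hle : O ≤ O') {ℓ : ℕ} (hℓ : ℓ.Prime) {x : K}
    (hx0 : x ≠ 0) (hx : x ∈ O') (hx' : x⁻¹ ∈ O') (hnd : NdC ℓ x (O : Set K)) : HasExt ℓ O' := by
  -- the element or its inverse is a nonunit of `O`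
  have key : ∀ x : K, x ≠ 0 → x ∈ O' → x⁻¹ ∈ O' → NdC ℓ x (O : Set K) → x⁻¹ ∉ O → HasExt ℓ O' := by
    intro x hx0 hx hx' hnd hxn
    have h0 : IsLocalRing.residue O' ⟨x, hx⟩ ≠ 0 := by
      intro h1
      rw [IsLocalRing.residue_eq_zero_iff, IsLocalRing.mem_maximalIdeal] at h1
      exact h1 (IsUnit.of_mul_eq_one ⟨x⁻¹, hx'⟩ (Subtype.ext (mul_inv_cancel₀ hx0)))
    refine hasExt_of_val (img O O' hle) hℓ h0 ?_ ?_
    · by_contra hcon
      rw [not_lt] at hcon
      apply hxn
      rw [← mem_img (hRP := hle) (hx := hx'), ← residue_inv hx hx' hx0,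
        ← ValuationSubring.valuation_le_one_iff, map_inv₀]
      exact inv_le_one_of_one_le₀ hcon
    · intro c hc
      have hc0 : c ≠ 0 := by
        rintro rfl
        rw [map_zero, zero_pow hℓ.ne_zero, Valuation.zero_iff] at hc
        exact h0 hc
      obtain ⟨⟨y, hy⟩, rfl⟩ := IsLocalRing.residue_surjective c
      have hy' := inv_mem_of_residue_ne_zero hc0
      have hy0 : y ≠ 0 := by
        rintro rfl
        exact hc0 (map_zero (IsLocalRing.residue O'))
      rw [← map_pow] at hc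
      have hv0 : (img O O' hle).valuation (IsLocalRing.residue O' ⟨x, hx⟩) ≠ 0 :=
        (Valuation.ne_zero_iff _).2 h0
      have h5 : IsLocalRing.residue O' ⟨x * (y⁻¹) ^ ℓ, O'.mul_mem _ _ hx (pow_mem hy' _)⟩ =
          IsLocalRing.residue O' ⟨x, hx⟩ * ((IsLocalRing.residue O' ⟨y, hy⟩) ^ ℓ)⁻¹ := by
        rw [← inv_pow, residue_inv hy hy' hy0, ← map_pow, ← map_mul]
        rfl
      have h6 : IsLocalRing.residue O' ⟨y ^ ℓ * x⁻¹, O'.mul_mem _ _ (pow_mem hy _) hx'⟩ =
          (IsLocalRing.residue O' ⟨y, hy⟩) ^ ℓ * (IsLocalRing.residue O' ⟨x, hx⟩)⁻¹ := by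
        rw [residue_inv hx hx' hx0, ← map_pow, ← map_mul]
        rfl
      have h7 : x * (y⁻¹) ^ ℓ ∈ O := by
        rw [← mem_img (hRP := hle) (hx := O'.mul_mem _ _ hx (pow_mem hy' _)), h5,
          ← ValuationSubring.valuation_le_one_iff, map_mul, map_inv₀, ← hc, mul_inv_cancel₀ hv0]
      have h8 : y ^ ℓ * x⁻¹ ∈ O := by
        rw [← mem_img (hRP := hle) (hx := O'.mul_mem _ _ (pow_mem hy _) hx'), h6,
          ← ValuationSubring.valuation_le_one_iff, map_mul, map_inv₀, ← hc, mul_inv_cancel₀ hv0]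
      refine hnd y⁻¹ (y ^ ℓ * x⁻¹) h7 h8 ?_
      rw [inv_pow]
      field_simp
  by_cases hxn : x⁻¹ ∈ O
  · have hxn' : (x⁻¹)⁻¹ ∉ O := by
      rw [inv_inv]
      intro h1
      refine hnd 1 x⁻¹ (by rwa [one_pow, mul_one]) hxn ?_
      rw [one_pow, mul_one, mul_inv_cancel₀ hx0]
    refine key x⁻¹ (inv_ne_zero hx0) hx' (by rwa [inv_inv]) ?_ hxn'
    intro y w h1 h2 h3
    have hw : w = x * (y ^ ℓ)⁻¹ := by
      have := eq_inv_of_mul_eq_one_right h3
      rw [this, mul_inv, inv_inv]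
    refine hnd y⁻¹ (x⁻¹ * y ^ ℓ) ?_ h1 ?_
    · rw [inv_pow, ← hw]
      exact h2
    · rw [inv_pow, ← hw, mul_comm]
      exact h3
  · exact key x hx0 hx hx' hnd hxn

end

end Pool.Agent.K4H89.NV
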