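import Pool.Agent.K4H89.NV.Defs

/-!
# Definable valuation rings of elementarily equivalent fields
-/

set_option autoImplicit false

namespace Pool.Agent.K4H89.NV

open FirstOrder FirstOrder.Language FirstOrder.Ring

section

variable {p : ℕ} (ψ : FirstOrder.Language.ring.Formula (Fin 1 ⊕ Fin p))

/-- The formula `ψ` at a term. -/
def at' {α : Type} (τ : Language.ring.Term (Fin p ⊕ α)) : Language.ring.Formula (Fin p ⊕ α) :=
  BoundedFormula.subst ψ (Sum.elim (fun _ => τ) (fun j => Term.var (Sum.inl j)))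

/-- The two variables. -/
abbrev vr (i : Fin 2) : Language.ring.Term (Fin p ⊕ Fin 2) := Term.var (Sum.inr i)

/-- `ψ` defines a nontrivial valuation ring, with the parameters as free variables. -/
noncomputable def vsF : Language.ring.Formula (Fin p) :=
  (at' ψ (α := Fin 2) 1 ⊓ (((at' ψ (vr 0)).imp ((at' ψ (vr 1)).imp (at' ψ (vr 0 + vr 1)))) ⊓
    (((at' ψ (vr 0)).imp (at' ψ (-(vr 0)))) ⊓
    (((at' ψ (vr 0)).imp ((at' ψ (vr 1)).imp (at' ψ (vr 0 * vr 1)))) ⊓
    ((Term.equal (vr 0 * vr 1 : Language.ring.Term (Fin p ⊕ Fin 2)) 1).imp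
      (at' ψ (vr 0) ⊔ at' ψ (vr 1))))))).iAlls (Fin 2) ⊓
  ((at' ψ (vr 0)).not).iExs (Fin 2)

variable {K : Type} [Field K] [CompatibleRing K]

theorem realize_at {α : Type} (τ : Language.ring.Term (Fin p ⊕ α)) (v : Fin p ⊕ α → K) :
    (at' ψ τ).Realize v ↔ ψ.Realize (Sum.elim (fun _ => τ.realize v) (fun j => v (Sum.inl j))) := by
  unfold at'
  rw [Formula.Realize, BoundedFormula.realize_subst]
  have e : (fun a => (Sum.elim (fun _ => τ) (fun j => Term.var (Sum.inl j)) a :
      Language.ring.Term (Fin p ⊕ α)).realize v) =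
      (Sum.elim (fun _ => τ.realize v) (fun j => v (Sum.inl j)) : Fin 1 ⊕ Fin p → K) := by
    funext a
    rcases a with a | a <;> rfl
  rw [e]
  rfl

theorem realize_vsF (c : Fin p → K) : (vsF ψ).Realize c ↔
    ((ψ.Realize (Sum.elim (fun _ => (1 : K)) c)) ∧
      (∀ x y : K, ψ.Realize (Sum.elim (fun _ => x) c) → ψ.Realize (Sum.elim (fun _ => y) c) →
        ψ.Realize (Sum.elim (fun _ => x + y) c)) ∧
      (∀ x : K, ψ.Realize (Sum.elim (fun _ => x) c) → ψ.Realize (Sum.elim (fun _ => -x) c)) ∧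
      (∀ x y : K, ψ.Realize (Sum.elim (fun _ => x) c) → ψ.Realize (Sum.elim (fun _ => y) c) →
        ψ.Realize (Sum.elim (fun _ => x * y) c)) ∧
      (∀ x y : K, x * y = 1 → ψ.Realize (Sum.elim (fun _ => x) c) ∨
        ψ.Realize (Sum.elim (fun _ => y) c))) ∧
    ∃ x : K, ¬ ψ.Realize (Sum.elim (fun _ => x) c) := by
  unfold vsF
  rw [Formula.realize_inf, Formula.realize_iAlls, Formula.realize_iExs]
  simp only [Formula.realize_inf, Formula.realize_imp, Formula.realize_sup, Formula.realize_not,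
    Formula.realize_equal, realize_at, realize_add, realize_mul, realize_neg, realize_one,
    Term.realize_var, Sum.elim_inl, Sum.elim_inr]
  constructor
  · rintro ⟨h, i, h2⟩
    refine ⟨⟨(h (fun _ => 0)).1, fun x y => ?_, fun x => ?_, fun x y => ?_, fun x y => ?_⟩, i 0, h2⟩
    · simpa using (h ![x, y]).2.1
    · simpa using (h ![x, x]).2.2.1
    · simpa using (h ![x, y]).2.2.2.1
    · simpa using (h ![x, y]).2.2.2.2
  · rintro ⟨⟨h1, h2, h3, h4, h5⟩, x, h6⟩
    exact ⟨fun i => ⟨h1, h2 _ _, h3 _, h4 _ _, h5 _ _⟩, fun _ => x, h6⟩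

end

/-- A nontrivial definable valuation ring of a field gives one of every elementarily equivalent
field. -/
theorem definable_transfer {K K' : Type} [Field K] [CompatibleRing K] [Field K'] [CompatibleRing K']
    (h : FirstOrder.Language.ring.ElementarilyEquivalent K K')
    (hO : ∃ O : ValuationSubring K', O ≠ ⊤ ∧ Definable O) :
    ∃ O : ValuationSubring K, O ≠ ⊤ ∧ Definable O := by
  obtain ⟨O, hne, p, ψ, c, hc⟩ := hO
  have h1 : (vsF ψ).Realize c := by
    rw [realize_vsF]
    simp only [← hc]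
    refine ⟨⟨O.one_mem, fun x y => O.add_mem _ _, fun x => O.neg_mem _, fun x y => O.mul_mem _ _,
      fun x y hxy => ?_⟩, ?_⟩
    · rcases O.mem_or_inv_mem x with h | h
      · exact Or.inl h
      · right
        rw [eq_inv_of_mul_eq_one_right hxy]
        exact h
    · by_contra hcon
      push Not at hcon
      exact hne (top_unique fun x _ => hcon x)
  have h2 : K' ⊨ ((Formula.relabel (Sum.inr : Fin p → Empty ⊕ Fin p) (vsF ψ)).iExs (Fin p) :
      Language.ring.Sentence) := by
    rw [Sentence.Realize, Formula.realize_iExs]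
    refine ⟨c, ?_⟩
    rw [Formula.realize_relabel]
    exact h1
  have h3 := (elementarilyEquivalent_iff.1 h _).2 h2
  rw [Sentence.Realize, Formula.realize_iExs] at h3
  obtain ⟨c', h4⟩ := h3
  rw [Formula.realize_relabel] at h4
  have h5 : (vsF ψ).Realize c' := h4
  rw [realize_vsF] at h5
  obtain ⟨⟨h6, h7, h8, h9, h10⟩, x, h11⟩ := h5
  have h0 : ψ.Realize (Sum.elim (fun _ => (0 : K)) c') := by
    have := h7 1 (-1) h6 (h8 1 h6)
    rwa [add_neg_cancel] at this
  refine ⟨
    { carrier := {x | ψ.Realize (Sum.elim (fun _ => x) c')}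
      mul_mem' := fun {x y} => h9 x y
      one_mem' := h6
      add_mem' := fun {x y} => h7 x y
      zero_mem' := h0
      neg_mem' := fun {x} => h8 x
      mem_or_inv_mem' := fun x => by
        by_cases hx : x = 0
        · left
          rw [hx]
          exact h0
        · exact h10 x x⁻¹ (mul_inv_cancel₀ hx) }, fun htop => ?_, p, ψ, c', fun x => Iff.rfl⟩
  apply h11
  have : x ∈ (⊤ : ValuationSubring K) := trivial
  rw [← htop] at this
  exact this

end Pool.Agent.K4H89.NV
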