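import Pool.Agent.K4H89.NV.Few
import Pool.Agent.K4H89.NV.Coarse
import Pool.Agent.K4H89.NV.Trans
import Pool.Agent.R492.DV.Kueker

/-!
# Branching valuation rings have definable coarsenings
-/

set_option autoImplicit false

namespace Pool.Agent.K4H89.NV

open FirstOrder FirstOrder.Language
open Pool.Agent.W882.Nip3 Pool.Agent.R492.DV Pool.Agent.R492.DW

section

variable {K : Type} [Field K] {O : ValuationSubring K}

theorem NotDivisible.ne_zero {d : ℕ} {t : K} (h : NotDivisible O d t) (hd : 1 ≤ d) : t ≠ 0 := by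
  rintro rfl
  apply h 0
  rw [map_zero, zero_pow (by omega)]

theorem ndC_iff {d : ℕ} {t : K} (ht : t ≠ 0) : NdC d t (O : Set K) ↔ NotDivisible O d t := by
  have hvt : O.valuation t ≠ 0 := (Valuation.ne_zero_iff _).2 ht
  constructor
  · intro h y hy
    by_cases hyd : y ^ d = 0
    · rw [← map_pow, hyd, map_zero] at hy
      exact hvt hy
    have hvy : O.valuation (y ^ d) ≠ 0 := (Valuation.ne_zero_iff _).2 hyd
    refine h y⁻¹ (y ^ d * t⁻¹) ?_ ?_ ?_
    · show t * y⁻¹ ^ d ∈ O
      rw [← ValuationSubring.valuation_le_one_iff, inv_pow, map_mul, map_inv₀, map_pow, ← hy,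
        mul_inv_cancel₀ hvt]
    · show y ^ d * t⁻¹ ∈ O
      rw [← ValuationSubring.valuation_le_one_iff, map_mul, map_inv₀, map_pow, ← hy,
        mul_inv_cancel₀ hvt]
    · rw [inv_pow]
      field_simp
  · intro h y w h1 h2 h3
    have h1' : O.valuation (t * y ^ d) ≤ 1 := (ValuationSubring.valuation_le_one_iff _ _).2 h1
    have h2' : O.valuation w ≤ 1 := (ValuationSubring.valuation_le_one_iff _ _).2 h2
    have h4 : O.valuation (t * y ^ d) * O.valuation w = 1 := by rw [← map_mul, h3, map_one]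
    have h5 : O.valuation (t * y ^ d) = 1 := by
      refine le_antisymm h1' ?_
      calc (1 : O.ValueGroup) = O.valuation (t * y ^ d) * O.valuation w := h4.symm
        _ ≤ O.valuation (t * y ^ d) * 1 := by gcongr
        _ = _ := mul_one _
    have hyd : y ^ d ≠ 0 := by
      intro h0
      rw [h0, mul_zero, map_zero] at h5
      exact zero_ne_one h5
    have hvy : O.valuation (y ^ d) ≠ 0 := (Valuation.ne_zero_iff _).2 hyd
    apply h y⁻¹
    rw [map_mul] at h5
    rw [map_inv₀, inv_pow, ← map_pow]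
    exact eq_inv_of_mul_eq_one_left h5

/-- The first type: the class `BrSet` for a ring with an extension of the residue field. -/
theorem brSet_of {d : ℕ} (hd : 2 ≤ d) {t : K} (hE : HasExt d O) (hnd : NotDivisible O d t)
    (hreg : ∀ O'', O < O'' → ¬ NotDivisible O'' d t) : BrSet d t t (O : Set K) := by
  have ht := hnd.ne_zero (by omega)
  refine ⟨O.one_mem, fun x hx y hy => O.add_mem _ _ hx hy, fun x hx => O.neg_mem _ hx,
    fun x hx y hy => O.mul_mem _ _ hx hy, ?_, ht, (ndC_iff ht).2 hnd, ?_,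
    Or.inl (extC_of_hasExt hd hE)⟩
  · intro x y hxy
    rcases O.mem_or_inv_mem x with h | h
    · exact Or.inl h
    · right
      rw [eq_inv_of_mul_eq_one_right hxy]
      exact h
  · exact regC_of_largest O (by omega) fun O'' h h1 => hreg O'' h ((ndC_iff ht).1 h1)

/-- The first type. -/
theorem coarse_unram (K : Type) [Field K] [FirstOrder.Ring.CompatibleRing K]
    (hK : FewPlaces K) (O : ValuationSubring K) {d : ℕ}
    (hd : 2 ≤ d) (t : K) (hE : HasExt d O) (hnd : NotDivisible O d t) :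
    ∃ O' : ValuationSubring K, O ≤ O' ∧ NotDivisible O' d t ∧
      (∀ O'', O' < O'' → ¬ NotDivisible O'' d t) ∧ Definable O' := by
  have ht := hnd.ne_zero (by omega)
  obtain ⟨O', h1, h2, h3⟩ := exists_largest_nd O ((ndC_iff ht).2 hnd)
  have h4 : NotDivisible O' d t := (ndC_iff ht).1 h2
  have h5 : ∀ O'', O' < O'' → ¬ NotDivisible O'' d t := fun O'' h h1 => h3 O'' h ((ndC_iff ht).2 h1)
  have h6 := brSet_of hd (hasExt_coarse h1 hd hE) h4 h5
  exact ⟨O', h1, h4, h5, definable_of_brSet kueker K hK hd h6⟩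

theorem not_top_of {d : ℕ} {t : K} (hnd : NotDivisible O d t) (ht : t ≠ 0) : O ≠ ⊤ := by
  rintro rfl
  refine (ndC_iff ht).2 hnd 1 t⁻¹ trivial trivial ?_
  rw [one_pow, mul_one, mul_inv_cancel₀ ht]

/-- Branching valuation rings have definable nontrivial coarsenings. -/
theorem coarse_branching (K : Type) [Field K] [FirstOrder.Ring.CompatibleRing K]
    (hK : FewPlaces K) (O : ValuationSubring K) {ℓ : ℕ}
    (hℓ : ℓ.Prime) (hO : Branching O ℓ) :
    ∃ O' : ValuationSubring K, O ≤ O' ∧ O' ≠ ⊤ ∧ Definable O' := by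
  obtain ⟨⟨t, ht⟩, ⟨d, hd0, ⟨m, rfl⟩, hE⟩ | hcyc⟩ := hO
  rotate_left
  · clear ht t
    push Not at hcyc
    obtain ⟨t, ht⟩ := hcyc 1 one_ne_zero
    have htd : NotDivisible O ℓ t := fun y hy => by
      apply ht y 0
      rw [pow_zero, mul_one]
      exact hy
    have ht0 := htd.ne_zero hℓ.one_le
    obtain ⟨s, hs⟩ := hcyc t ht0
    have hs0 : s ≠ 0 := by
      rintro rfl
      apply hs 0 0
      rw [map_zero, zero_pow hℓ.ne_zero, zero_mul]
    have hti : ∀ i : ℕ, t ^ i * s ≠ 0 := fun i => mul_ne_zero (pow_ne_zero _ ht0) hs0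
    have hnds : ∀ i : ℕ, NotDivisible O ℓ (t ^ i * s) := by
      intro i y hy
      obtain ⟨m, hm⟩ : ∃ m, ℓ = m + 1 := ⟨ℓ - 1, by have := hℓ.pos; omega⟩
      have hvt : O.valuation t ≠ 0 := (Valuation.ne_zero_iff _).2 ht0
      apply hs (y * (t⁻¹) ^ i) (m * i)
      rw [map_mul, map_pow] at hy
      rw [map_mul, map_pow, map_inv₀, mul_pow, ← hy]
      have e1 : ((O.valuation t)⁻¹ ^ i) ^ ℓ =
          ((O.valuation t) ^ i)⁻¹ * ((O.valuation t) ^ (m * i))⁻¹ := by
        rw [← pow_mul, inv_pow, ← mul_inv, ← pow_add, hm]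
        congr 2
        ring
      rw [e1]
      have h1 : O.valuation t ^ i ≠ 0 := pow_ne_zero _ hvt
      have h2 : O.valuation t ^ (m * i) ≠ 0 := pow_ne_zero _ hvt
      field_simp
    by_cases hcase : ∃ (O'' : ValuationSubring K) (x t' : K), O ≤ O'' ∧ x ≠ 0 ∧ x ∈ O'' ∧
        x⁻¹ ∈ O'' ∧ NdC ℓ x (O : Set K) ∧ NotDivisible O'' ℓ t'
    · obtain ⟨O'', x, t', h1, h2, h3, h4, h5, h6⟩ := hcase
      have hE := hasExt_of_unit h1 hℓ h2 h3 h4 h5
      obtain ⟨O', h7, h8, -, h9⟩ := coarse_unram K hK O'' hℓ.two_le t' hE h6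
      exact ⟨O', h1.trans h7, not_top_of h8 (h8.ne_zero hℓ.one_le), h9⟩
    · push Not at hcase
      -- the largest coarsening in which all units are divisible in `O`
      obtain ⟨O₁, h1, h2, h3⟩ := exists_largest O (fun A => ∀ x : K, x ≠ 0 → x ∈ A → x⁻¹ ∈ A →
        ¬ NdC ℓ x (O : Set K)) (by
          intro x hx0 hx hx' h
          refine h 1 x⁻¹ (by rw [one_pow, mul_one]; exact hx) hx' ?_
          rw [one_pow, mul_one, mul_inv_cancel₀ hx0]) (by
          intro C U hC hCp hch hU x hx0 hx hx' h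
          obtain ⟨A, hA, h3⟩ := (hU _).1 hx
          obtain ⟨B, hB, h4⟩ := (hU _).1 hx'
          rcases hch.total hA hB with hAB | hAB
          · exact (hCp B hB).2 x hx0 (hAB h3) h4 h
          · exact (hCp A hA).2 x hx0 h3 (hAB h4) h)
      have hdiv : ∀ O'', O₁ < O'' → ∀ t' : K, ¬ NotDivisible O'' ℓ t' := by
        intro O'' hlt t'
        have h4 := h3 O'' hlt
        push Not at h4
        obtain ⟨x, hx0, hx, hx', hnd⟩ := h4
        exact hcase O'' x t' (h1.trans hlt.le) hx0 hx hx' hnd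
      have hnd1 : ∀ u : K, u ≠ 0 → NotDivisible O ℓ u → NdC ℓ u (O₁ : Set K) := by
        intro u hu hnd y w h4 h5 h6
        have hy0 : u * y ^ ℓ ≠ 0 := left_ne_zero_of_mul_eq_one h6
        have hw : w = (u * y ^ ℓ)⁻¹ := eq_inv_of_mul_eq_one_right h6
        refine h2 (u * y ^ ℓ) hy0 h4 (by rw [← hw]; exact h5) ?_
        exact ((ndC_iff hu).2 hnd).mul_pow y
      have hreg : ∀ u : K, u ≠ 0 → RegC ℓ u (O₁ : Set K) := fun u hu =>
        regC_of_largest O₁ hℓ.one_le fun O'' hlt h => hdiv O'' hlt u ((ndC_iff hu).1 h)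
      have hBr : BrSet ℓ t s (O₁ : Set K) := by
        refine ⟨O₁.one_mem, fun x hx y hy => O₁.add_mem _ _ hx hy, fun x hx => O₁.neg_mem _ hx,
          fun x hx y hy => O₁.mul_mem _ _ hx hy, ?_, ht0, hnd1 t ht0 htd, hreg t ht0,
          Or.inr ⟨hℓ, hs0, hreg s hs0, fun i => hnd1 _ (hti i) (hnds i)⟩⟩
        intro x y hxy
        rcases O₁.mem_or_inv_mem x with h | h
        · exact Or.inl h
        · right
          rw [eq_inv_of_mul_eq_one_right hxy]
          exact h
      refine ⟨O₁, h1, ?_, definable_of_brSet kueker K hK hℓ.two_le hBr⟩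
      rintro rfl
      refine hnd1 t ht0 htd 1 t⁻¹ trivial trivial ?_
      rw [one_pow, mul_one, mul_inv_cancel₀ ht0]
  · have hm : m ≠ 0 := by
      rintro rfl
      exact hd0 (mul_zero _)
    have hd2 : 2 ≤ ℓ * m := by
      have := hℓ.two_le
      nlinarith [Nat.pos_of_ne_zero hm]
    have htd : NotDivisible O (ℓ * m) t := by
      intro y hy
      apply ht (y ^ m)
      rw [map_pow, ← pow_mul, mul_comm m]
      exact hy
    obtain ⟨O', h7, h8, -, h9⟩ := coarse_unram K hK O hd2 t hE htd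
    exact ⟨O', h7, not_top_of h8 (h8.ne_zero (by omega)), h9⟩

end

/-- The number of regular rings. -/
theorem few_regular (K : Type) [Field K] [FirstOrder.Ring.CompatibleRing K]
    (hK : FewPlaces K) {d : ℕ} (hd : 2 ≤ d) :
    ∃ N : ℕ, ∀ (K' : Type) [Field K'] [FirstOrder.Ring.CompatibleRing K'],
      FirstOrder.Language.ring.ElementarilyEquivalent K K' →
      (∀ (O : Fin N → ValuationSubring K') (t : Fin N → K'),
        (∀ i, HasExt d (O i) ∧ NotDivisible (O i) d (t i) ∧
          ∀ O'', O i < O'' → ¬ NotDivisible O'' d (t i)) → ∃ i j, i ≠ j ∧ O i ≤ O j) ∧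
      ∀ t : K', {O : ValuationSubring K' | HasExt d O ∧ NotDivisible O d t ∧
          ∀ O'', O < O'' → ¬ NotDivisible O'' d t}.encard < N := by
  obtain ⟨N, hN⟩ := hK d
  refine ⟨N, fun K' _ _ hKK' => ⟨fun O t h => ?_, fun t => ?_⟩⟩
  · by_contra hcon
    push Not at hcon
    exact not_incomparable hd (hN K' hKK') t t (fun i => (O i : Set K'))
      (fun i => brSet_of hd (h i).1 (h i).2.1 (h i).2.2)
      (fun i j hij hsub => hcon i j hij hsub)
  · by_contra hcon
    rw [not_lt] at hcon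
    obtain ⟨u, hu, huN⟩ := Set.exists_subset_encard_eq hcon
    have huf : u.Finite := Set.finite_of_encard_eq_coe huN
    have hcard : huf.toFinset.card = N := by
      have h1 := huf.encard_eq_coe_toFinset_card
      rw [huN] at h1
      exact_mod_cast h1.symm
    let e : Fin N → ValuationSubring K' := fun i => (huf.toFinset.equivFinOfCardEq hcard).symm i
    have heinj : Function.Injective e := fun i j hij =>
      (huf.toFinset.equivFinOfCardEq hcard).symm.injective (Subtype.ext hij)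
    have hemem : ∀ i, HasExt d (e i) ∧ NotDivisible (e i) d t ∧
        ∀ O'', e i < O'' → ¬ NotDivisible O'' d t := fun i =>
      hu (huf.mem_toFinset.1 ((huf.toFinset.equivFinOfCardEq hcard).symm i).2)
    refine not_injective_br hd (hN K' hKK') t (fun _ => t) (fun i => (e i : Set K'))
      (fun i => brSet_of hd (hemem i).1 (hemem i).2.1 (hemem i).2.2) ?_
    intro i j hij
    exact heinj (SetLike.coe_injective hij)

end Pool.Agent.K4H89.NV
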