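import Pool.Agent.TH686.NF.Transfer

/-!
# Norms from ramified extensions of a field with an arbitrary valuation
-/

set_option autoImplicit false

namespace Pool.Agent.K4H89.NV

open Polynomial Pool.Agent.W882.Nip3 Pool.Agent.TH686.NF

/-- A valuation ring of a field extends to every larger field. -/
theorem exists_extension {F L : Type*} [Field F] [Field L] (i : F →+* L) (O : ValuationSubring F) :
    ∃ B : ValuationSubring L, ∀ x : F, i x ∈ B ↔ x ∈ O := by
  obtain ⟨B, h, hloc⟩ := IsLocalRing.exists_factor_valuationRing (i.comp O.subtype)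
  refine ⟨B, fun x => ⟨fun hx => ?_, fun hx => h ⟨x, hx⟩⟩⟩
  rcases O.mem_or_inv_mem x with h1 | h1
  · exact h1
  · by_cases hx0 : x = 0
    · rw [hx0]
      exact O.zero_mem
    have h2 : IsUnit ((i.comp O.subtype).codRestrict B.toSubring h ⟨x⁻¹, h1⟩) := by
      refine IsUnit.of_mul_eq_one (⟨i x, hx⟩ : B.toSubring) (Subtype.ext ?_)
      show i x⁻¹ * i x = 1
      rw [← map_mul, inv_mul_cancel₀ hx0, map_one]
    have h3 := hloc.map_nonunit _ h2
    obtain ⟨u, hu⟩ := h3
    have h4 : ((u : O) : F) * (((u⁻¹ : Oˣ) : O) : F) = 1 := by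
      rw [← MulMemClass.coe_mul, Units.mul_inv]
      rfl
    rw [hu] at h4
    have h5 : (((u⁻¹ : Oˣ) : O) : F) = x := by
      have h6 : (((u⁻¹ : Oˣ) : O) : F) = (x⁻¹)⁻¹ := eq_inv_of_mul_eq_one_right h4
      rwa [inv_inv] at h6
    rw [← h5]
    exact ((u⁻¹ : Oˣ) : O).2

section

variable {Γ₀ : Type*} [LinearOrderedCommGroupWithZero Γ₀]

/-- a value whose power with exponent prime to `ℓ` is an `ℓ`-th power is an `ℓ`-th power -/
theorem coprime_pow' {F : Type*} [Field F] (v : Valuation F Γ₀) {ℓ : ℕ} (hℓ : ℓ.Prime) {a : F}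
    (ha0 : a ≠ 0) {n : ℕ} (hn0 : 0 < n) (hn : n < ℓ) {c : F} (h : v a ^ n = v c ^ ℓ) :
    ∃ e : F, v a = v e ^ ℓ := by
  have hcop : Nat.Coprime n ℓ := by
    rw [Nat.coprime_comm]
    exact (Nat.Prime.coprime_iff_not_dvd hℓ).2 (Nat.not_dvd_of_pos_of_lt hn0 hn)
  have hb := Nat.gcd_eq_gcd_ab n ℓ
  rw [hcop.gcd_eq_one] at hb
  set u := Nat.gcdA n ℓ
  set w := Nat.gcdB n ℓ
  refine ⟨c ^ u * a ^ w, ?_⟩
  have hna : v a ≠ 0 := (v.ne_zero_iff).2 ha0
  calc v a = v a ^ (1 : ℤ) := (zpow_one _).symm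
    _ = v a ^ ((n : ℤ) * u + ℓ * w) := by rw [← hb]; rfl
    _ = (v a ^ n) ^ u * (v a ^ ℓ) ^ w := by
      rw [zpow_add₀ hna, zpow_mul, zpow_mul, zpow_natCast, zpow_natCast]
    _ = (v c ^ ℓ) ^ u * (v a ^ ℓ) ^ w := by rw [h]
    _ = v (c ^ u * a ^ w) ^ ℓ := by
      rw [map_mul, map_zpow₀, map_zpow₀, mul_pow, ← zpow_natCast, ← zpow_natCast,
        ← zpow_natCast, ← zpow_natCast, ← zpow_mul, ← zpow_mul, ← zpow_mul, ← zpow_mul,
        mul_comm u, mul_comm w]

variable {F : Type} [Field F]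

/-- the values of the roots of `X ^ ℓ + a X + a` -/
theorem root_val {L : Type*} [Field L] (w : Valuation L Γ₀) {ℓ : ℕ} (hℓ : 2 ≤ ℓ) {a α : L}
    (ha : w a < 1) (h : α ^ ℓ + a * α + a = 0) : w α ^ ℓ = w a := by
  have h1 : α ^ ℓ = -(a * (α + 1)) := by linear_combination h
  have h2 : w α ^ ℓ = w a * w (α + 1) := by
    rw [← map_pow, h1, Valuation.map_neg, map_mul]
  have h3 : w α < 1 := by
    by_contra hcon
    rw [not_lt] at hcon
    have h4 : w (α + 1) ≤ w α := by
      refine (w.map_add _ _).trans (max_le le_rfl ?_)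
      rw [map_one]
      exact hcon
    have hα0 : 0 < w α := lt_of_lt_of_le zero_lt_one hcon
    have h5 : w α ^ ℓ < w α := by
      rw [h2]
      calc w a * w (α + 1) ≤ w a * w α := by gcongr
        _ < 1 * w α := by gcongr
        _ = w α := one_mul _
    have h6 : w α ≤ w α ^ ℓ := le_self_pow₀ hcon (by omega)
    exact absurd h5 (not_lt.2 h6)
  have h7 : w (α + 1) = 1 := by
    rw [Valuation.map_add_eq_of_lt_right _ (by rwa [map_one]), map_one]
  rw [h2, h7, mul_one]

variable {L : Type} [Field L] [Algebra F L] (w : Valuation L Γ₀)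

theorem irr_aux [IsAlgClosed L] {ℓ : ℕ} (hℓ : ℓ.Prime) {a : F} (ha0 : a ≠ 0)
    (ha1 : w (algebraMap F L a) < 1)
    (ha : ∀ c : F, w (algebraMap F L a) ≠ w (algebraMap F L c) ^ ℓ) :
    (X ^ ℓ + C a * X + C a : F[X]).Monic ∧ (X ^ ℓ + C a * X + C a : F[X]).natDegree = ℓ ∧
      Irreducible (X ^ ℓ + C a * X + C a : F[X]) := by
  have hlow : (C a * X + C a : F[X]).degree < ((ℓ : ℕ) : WithBot ℕ) := by
    refine lt_of_le_of_lt (degree_linear_le) ?_
    exact_mod_cast hℓ.one_lt
  have hassoc : (X ^ ℓ + C a * X + C a : F[X]) = X ^ ℓ + (C a * X + C a) := by ring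
  have hm : (X ^ ℓ + C a * X + C a : F[X]).Monic := by
    rw [hassoc]
    exact monic_X_pow_add hlow
  have hdeg : (X ^ ℓ + C a * X + C a : F[X]).natDegree = ℓ := by
    rw [hassoc]
    apply natDegree_eq_of_degree_eq_some
    rw [degree_add_eq_left_of_degree_lt (by rwa [degree_X_pow]), degree_X_pow]
  refine ⟨hm, hdeg, ?_⟩
  rw [hm.irreducible_iff_natDegree]
  refine ⟨fun h1 => ?_, ?_⟩
  · rw [h1, natDegree_one] at hdeg
    exact hℓ.ne_zero hdeg.symm
  · intro g g' hg hg' hgg
    by_contra hcon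
    push Not at hcon
    have h1 : g.natDegree + g'.natDegree = ℓ := by
      rw [← hdeg, ← hgg, hg.natDegree_mul hg']
    have hs : (g.map (algebraMap F L)).Splits := IsAlgClosed.splits _
    have hgm : (g.map (algebraMap F L)).Monic := hg.map _
    have hcoeff : (g.map (algebraMap F L)).coeff 0 =
        (-1) ^ (g.map (algebraMap F L)).natDegree * (g.map (algebraMap F L)).roots.prod :=
      hs.coeff_zero_eq_prod_roots_of_monic hgm
    have hroot : ∀ r ∈ (g.map (algebraMap F L)).roots, w r ^ ℓ = w (algebraMap F L a) := by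
      intro r hr
      refine root_val w hℓ.two_le ha1 ?_
      have h2 : (g.map (algebraMap F L)).eval r = 0 := (mem_roots hgm.ne_zero).1 hr
      have h3 : ((X ^ ℓ + C a * X + C a : F[X]).map (algebraMap F L)).eval r = 0 := by
        rw [← hgg, Polynomial.map_mul, eval_mul, h2, zero_mul]
      simpa using h3
    have hprod : ∀ s : Multiset L, (∀ r ∈ s, w r ^ ℓ = w (algebraMap F L a)) →
        w s.prod ^ ℓ = w (algebraMap F L a) ^ (Multiset.card s) := by
      intro s
      induction s using Multiset.induction_on with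
      | empty => intro _; simp
      | cons r s ih =>
        intro hr
        rw [Multiset.prod_cons, map_mul, mul_pow, hr r (Multiset.mem_cons_self r s),
          ih (fun r hr' => hr r (Multiset.mem_cons_of_mem hr')), Multiset.card_cons, pow_succ']
    have h4 : w (algebraMap F L (g.coeff 0)) ^ ℓ = w (algebraMap F L a) ^ g.natDegree := by
      rw [← coeff_map, hcoeff, map_mul, mul_pow, hprod _ hroot, map_pow, Valuation.map_neg,
        map_one, one_pow, one_pow, one_mul, ← hs.natDegree_eq_card_roots, hg.natDegree_map]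
    obtain ⟨e, he⟩ := coprime_pow' (w.comap (algebraMap F L)) hℓ ha0 (n := g.natDegree)
      (Nat.pos_of_ne_zero hcon.1) (by omega) (c := g.coeff 0) h4.symm
    exact ha e he

theorem ram_aux [IsAlgClosed L] {ℓ : ℕ} (hℓ : ℓ.Prime) {a b : F} (ha0 : a ≠ 0)
    (ha1 : w (algebraMap F L a) < 1)
    (ha : ∀ c : F, w (algebraMap F L a) ≠ w (algebraMap F L c) ^ ℓ)
    (hb : ∀ (c : F) (i : ℕ),
      w (algebraMap F L b) ≠ w (algebraMap F L c) ^ ℓ * w (algebraMap F L a) ^ i) {D : ℕ}
    (hD : ℓ ≤ D) : ¬ DimLeOneUpTo F D := by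
  intro H
  obtain ⟨hm, hdeg, hirr⟩ := irr_aux w hℓ ha0 ha1 ha
  obtain ⟨G, hG⟩ : ∃ G : F[X], G = X ^ ℓ + C a * X + C a := ⟨_, rfl⟩
  rw [← hG] at hm hdeg hirr
  have hsep : G.Separable := by
    rw [separable_iff_derivative_ne_zero hirr]
    intro h0
    have h1 := congrArg (fun g => coeff g 0) h0
    simp only [coeff_derivative, coeff_zero] at h1
    rw [hG] at h1
    simp only [coeff_add, coeff_X_pow, coeff_C_mul, coeff_X, coeff_C] at h1
    rw [if_neg (by have := hℓ.two_le; omega)] at h1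
    simp at h1
    exact ha0 h1
  let _ : Fact (Irreducible G) := ⟨hirr⟩
  have h1 : FiniteDimensional F (AdjoinRoot G) := hm.finite_adjoinRoot
  have h2 : Algebra.IsSeparable F (AdjoinRoot G) := isSeparable_adjoinRoot hirr hsep
  have hfr : Module.finrank F (AdjoinRoot G) = ℓ := by
    rw [Module.finrank_eq_card_basis (AdjoinRoot.powerBasisAux' hm), Fintype.card_fin, hdeg]
  obtain ⟨z, hz⟩ := H F inferInstance inferInstance
    (by rw [Module.finrank_self]; exact hℓ.one_lt.le.trans hD)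
    (AdjoinRoot G) h1 h2 (by rw [hfr]; exact hD) b
  have hb0 : b ≠ 0 := by
    intro h
    apply hb 0 0
    rw [h, map_zero, map_zero, zero_pow hℓ.ne_zero, zero_mul]
  have hz0 : z ≠ 0 := by
    intro h
    apply hb0
    rw [← hz, h, Algebra.norm_zero]
  -- the root
  set α := AdjoinRoot.root G with hα
  have hαeq : ∀ σ : AdjoinRoot G →ₐ[F] L,
      w (σ α) ^ ℓ = w (algebraMap F L a) := by
    intro σ
    refine root_val w hℓ.two_le ha1 ?_
    have h3 : AdjoinRoot.mk G G = 0 := AdjoinRoot.mk_self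
    have h4 : α ^ ℓ + algebraMap F (AdjoinRoot G) a * α + algebraMap F (AdjoinRoot G) a = 0 := by
      have h5 : AdjoinRoot.mk G (X ^ ℓ + C a * X + C a) = 0 := by rw [← hG]; exact h3
      rw [map_add, map_add, map_pow, map_mul, AdjoinRoot.mk_X, AdjoinRoot.mk_C] at h5
      exact h5
    have h6 := congrArg σ h4
    rw [map_add, map_add, map_pow, map_mul, AlgHom.commutes, map_zero] at h6
    exact h6
  -- the expansion
  obtain ⟨Y0, hY0⟩ := AdjoinRoot.mk_surjective z
  set Y := Y0 %ₘ G with hY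
  have hzY : z = ∑ i ∈ Finset.range ℓ, algebraMap F (AdjoinRoot G) (Y.coeff i) * α ^ i := by
    have h3 : z = AdjoinRoot.mk G Y := by
      rw [← hY0, AdjoinRoot.mk_eq_mk, hY, modByMonic_eq_sub_mul_div, sub_sub_cancel]
      exact dvd_mul_right _ _
    have h4 : Y.natDegree < ℓ := by
      have h5 : Y.degree < G.degree := degree_modByMonic_lt _ hm
      rw [degree_eq_natDegree hm.ne_zero, hdeg] at h5
      by_cases hY1 : Y = 0
      · rw [hY1, natDegree_zero]
        exact hℓ.pos
      · rw [degree_eq_natDegree hY1] at h5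
        exact_mod_cast h5
    rw [h3]
    conv_lhs => rw [as_sum_range' Y ℓ h4]
    rw [map_sum]
    refine Finset.sum_congr rfl (fun i _ => ?_)
    rw [← C_mul_X_pow_eq_monomial, map_mul, map_pow, AdjoinRoot.mk_X, AdjoinRoot.mk_C]
    rfl
  set T : ℕ → Γ₀ := fun i => w (algebraMap F L (Y.coeff i)) ^ ℓ * w (algebraMap F L a) ^ i with hT
  obtain ⟨k, hk, hmax⟩ := (Finset.range ℓ).exists_max_image T ⟨0, Finset.mem_range.2 hℓ.pos⟩
  have hna : w (algebraMap F L a) ≠ 0 := (w.ne_zero_iff).2 (by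
    rwa [Ne, map_eq_zero])
  have hk0 : Y.coeff k ≠ 0 := by
    intro h
    apply hz0
    rw [hzY]
    refine Finset.sum_eq_zero fun i hi => ?_
    have h6 := hmax i hi
    rw [hT] at h6
    simp only at h6
    rw [h, map_zero, map_zero, zero_pow hℓ.ne_zero, zero_mul] at h6
    have h7 := le_antisymm h6 zero_le
    rw [mul_eq_zero, or_iff_left (pow_ne_zero _ hna), pow_eq_zero_iff hℓ.ne_zero,
      w.zero_iff, map_eq_zero] at h7
    rw [h7, map_zero, zero_mul]
  have hTlt : ∀ j ∈ Finset.range ℓ, j ≠ k → T j < T k := by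
    intro j hj hjk
    refine lt_of_le_of_ne (hmax j hj) (fun heq => ?_)
    have hTk : T k ≠ 0 := mul_ne_zero (pow_ne_zero _ ((w.ne_zero_iff).2 (by rwa [Ne, map_eq_zero])))
      (pow_ne_zero _ hna)
    have hcj : Y.coeff j ≠ 0 := by
      intro h
      apply hTk
      rw [← heq, hT]
      simp only
      rw [h, map_zero, map_zero, zero_pow hℓ.ne_zero, zero_mul]
    have key : ∀ p q : ℕ, p < q → q < ℓ → Y.coeff p ≠ 0 → Y.coeff q ≠ 0 → T p = T q → False := by
      intro p q hpq hq hp0 hq0 h8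
      have hwq : w (algebraMap F L (Y.coeff q)) ≠ 0 := (w.ne_zero_iff).2 (by rwa [Ne, map_eq_zero])
      have h9 : w (algebraMap F L a) ^ (q - p) = w (algebraMap F L (Y.coeff p / Y.coeff q)) ^ ℓ := by
        rw [map_div₀, map_div₀, div_pow, eq_div_iff (pow_ne_zero _ hwq)]
        have h10 : w (algebraMap F L a) ^ q =
            w (algebraMap F L a) ^ (q - p) * w (algebraMap F L a) ^ p := by
          rw [← pow_add]
          congr 1
          omega
        rw [hT] at h8
        simp only at h8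
        rw [h10] at h8
        have h11 : w (algebraMap F L a) ^ p ≠ 0 := pow_ne_zero _ hna
        apply mul_right_cancel₀ h11
        rw [h8, mul_comm (w (algebraMap F L (Y.coeff q)) ^ ℓ), mul_right_comm]
      obtain ⟨e, he⟩ := coprime_pow' (w.comap (algebraMap F L)) hℓ ha0 (n := q - p) (by omega)
        (by omega) h9
      exact ha e he
    rcases lt_or_gt_of_ne hjk with h | h
    · exact key j k h (Finset.mem_range.1 hk) hcj hk0 heq
    · exact key k j h (Finset.mem_range.1 hj) hk0 hcj heq.symm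
  have hσ : ∀ σ : AdjoinRoot G →ₐ[F] L, w (σ z) ^ ℓ = T k := by
    intro σ
    have hterm : ∀ i, w (algebraMap F L (Y.coeff i) * σ α ^ i) ^ ℓ = T i := by
      intro i
      rw [map_mul, map_pow, mul_pow, ← pow_mul, mul_comm i ℓ, pow_mul, hαeq σ]
    have hsum : σ z = ∑ i ∈ Finset.range ℓ, algebraMap F L (Y.coeff i) * σ α ^ i := by
      rw [hzY, map_sum]
      refine Finset.sum_congr rfl fun i _ => ?_
      rw [map_mul, map_pow, AlgHom.commutes]
    have h5 : w (σ z) = w (algebraMap F L (Y.coeff k) * σ α ^ k) := by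
      rw [hsum]
      refine Valuation.map_sum_eq_of_lt w (j := k)
        (f := fun i => algebraMap F L (Y.coeff i) * σ α ^ i) hk ?_
      intro i hi
      rw [Finset.mem_sdiff, Finset.mem_singleton] at hi
      have h6 := hTlt i hi.1 hi.2
      rw [← hterm i, ← hterm k] at h6
      exact lt_of_pow_lt_pow_left₀ _ zero_le h6
    rw [h5, hterm]
  have hnorm := Algebra.norm_eq_prod_embeddings F L z
  have h7 : w (algebraMap F L b) ^ ℓ = T k ^ ℓ := by
    rw [← hz, hnorm, map_prod, ← Finset.prod_pow]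
    simp only [hσ, Finset.prod_const, Finset.card_univ]
    rw [AlgHom.card, hfr]
  have h8 : w (algebraMap F L b) = T k := (pow_left_inj₀ zero_le zero_le hℓ.ne_zero).1 h7
  exact hb (Y.coeff k) k h8

/-- If the value group modulo `ℓ` has two independent elements, the field does not have dimension
one. -/
theorem ram_not_dimLe' [IsAlgClosed L] {ℓ : ℕ} (hℓ : ℓ.Prime) {a b : F} (ha0 : a ≠ 0)
    (ha : ∀ c : F, w (algebraMap F L a) ≠ w (algebraMap F L c) ^ ℓ)
    (hb : ∀ (c : F) (i : ℕ),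
      w (algebraMap F L b) ≠ w (algebraMap F L c) ^ ℓ * w (algebraMap F L a) ^ i) {D : ℕ}
    (hD : ℓ ≤ D) : ¬ DimLeOneUpTo F D := by
  have hwa : w (algebraMap F L a) ≠ 0 := (w.ne_zero_iff).2 (by rwa [Ne, map_eq_zero])
  rcases lt_trichotomy (w (algebraMap F L a)) 1 with h | h | h
  · exact ram_aux w hℓ ha0 h ha hb hD
  · exact (ha 1 (by rw [h, map_one, map_one, one_pow])).elim
  · refine ram_aux w hℓ (a := a⁻¹) (b := b) (inv_ne_zero ha0) ?_ (fun c hc => ?_)
      (fun c i hc => ?_) hD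
    · rw [map_inv₀, map_inv₀]
      exact inv_lt_one_of_one_lt₀ h
    · apply ha c⁻¹
      rw [map_inv₀, map_inv₀] at hc ⊢
      rw [inv_pow, ← hc, inv_inv]
    · obtain ⟨m, hm⟩ : ∃ m, ℓ = m + 1 := ⟨ℓ - 1, by have := hℓ.pos; omega⟩
      apply hb (c * (a⁻¹) ^ i) (m * i)
      rw [hc]
      simp only [map_mul, map_inv₀, map_pow, inv_pow, mul_pow]
      rw [mul_assoc]
      congr 1
      rw [← pow_mul, hm]
      have e1 : w (algebraMap F L a) ^ (i * (m + 1)) =
          w (algebraMap F L a) ^ i * w (algebraMap F L a) ^ (m * i) := by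
        rw [← pow_add]
        congr 1
        ring
      rw [e1, mul_inv, mul_assoc, inv_mul_cancel₀ (pow_ne_zero _ hwa), mul_one]

end

end Pool.Agent.K4H89.NV
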