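import Pool.Agent.R492.DV.Fin2
import Pool.Agent.R492.DV.E2

/-!
# Separable extensions of residue fields, expressed with the coefficients of a polynomial
-/

set_option autoImplicit false

namespace Pool.Agent.K4H89.NV

open Polynomial Pool.Agent.R492.DV

section

variable {K : Type} [Field K]

/-- The residue field of the valuation ring `Q` has a separable extension of degree `d`, generated by
a root of the reduction of the monic polynomial with coefficients `a`: it has no factorization, and
its derivative is not zero. -/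
def ExtC (d : ℕ) (Q : Set K) : Prop :=
  ∃ a : Fin d → K, (∀ i, a i ∈ Q) ∧
    (∃ (k : Fin d) (z : K), z ∈ Q ∧ (((k : ℕ) + 1 : ℕ) : K) * mc a ((k : ℕ) + 1) * z = 1) ∧
    ∀ e : Fin d, 0 < (e : ℕ) → ∀ (b : Fin (e : ℕ) → K) (c : Fin (d - (e : ℕ)) → K),
      (∀ i, b i ∈ Q) → (∀ i, c i ∈ Q) →
      ∃ (k : Fin d) (z : K), z ∈ Q ∧
        (mc a (k : ℕ) - ∑ j ∈ Finset.range ((k : ℕ) + 1), mc b j * mc c ((k : ℕ) - j)) * z = 1

/-- the clause holds if the residue field has a separable extension of degree `d` -/
theorem extC_of_hasExt {O : ValuationSubring K} {d : ℕ} (hd : 2 ≤ d) (hE : HasExt d O) :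
    ExtC d (O : Set K) := by
  obtain ⟨L, _, _, hsep, hfin⟩ := hE
  have : FiniteDimensional (IsLocalRing.ResidueField O) L :=
    FiniteDimensional.of_finrank_pos (by omega)
  obtain ⟨α, hα⟩ := Field.exists_primitive_element (IsLocalRing.ResidueField O) L
  have hint : IsIntegral (IsLocalRing.ResidueField O) α := Algebra.IsIntegral.isIntegral α
  have hdeg : (minpoly (IsLocalRing.ResidueField O) α).natDegree = d := by
    rw [(Field.primitive_element_iff_minpoly_natDegree_eq _ α).1 hα, hfin]
  obtain ⟨a, ha⟩ := exists_pol _ (minpoly.monic hint) hdeg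
  have hirr := minpoly.irreducible hint
  have hs : (minpoly (IsLocalRing.ResidueField O) α).Separable := hsep.isSeparable' α
  rw [ha] at hirr hs
  refine ⟨fun i => (a i : K), fun i => (a i).2, ?_, ?_⟩
  · have h1 : derivative (pol a) ≠ 0 := by
      intro h2
      have h3 := hs
      rw [separable_def, h2] at h3
      have h4 := isCoprime_zero_right.1 h3
      exact hirr.not_isUnit h4
    obtain ⟨k, hk⟩ : ∃ k, (derivative (pol a)).coeff k ≠ 0 := by
      by_contra hcon
      push Not at hcon
      exact h1 (Polynomial.ext fun k => by rw [hcon k, coeff_zero])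
    rw [coeff_derivative, coeff_pol] at hk
    have hkd : k < d := by
      by_contra hcon
      have h3 : mo a (k + 1) = 0 := by
        unfold mo
        rw [dif_neg (by omega), if_neg (by omega)]
      rw [h3, map_zero, zero_mul] at hk
      exact hk rfl
    obtain ⟨z, hz, hz1⟩ := exists_mul_eq_one (O := O) (x := ((k + 1 : ℕ) : O) * mo a (k + 1)) (by
      rw [map_mul, map_natCast]
      intro h5
      apply hk
      rw [mul_comm]
      push_cast at h5
      exact h5)
    refine ⟨⟨k, hkd⟩, z, hz, ?_⟩
    rw [← coe_mo]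
    rw [← hz1]
    push_cast
    rfl
  · intro e he b c hb hc
    let b' : Fin (e : ℕ) → O := fun i => ⟨b i, hb i⟩
    let c' : Fin (d - (e : ℕ)) → O := fun i => ⟨c i, hc i⟩
    have hne : pol a ≠ pol b' * pol c' := by
      intro h1
      rcases hirr.isUnit_or_isUnit h1 with h2 | h2
      · have := natDegree_eq_zero_of_isUnit h2
        rw [natDegree_pol] at this
        omega
      · have := natDegree_eq_zero_of_isUnit h2
        rw [natDegree_pol] at this
        have := e.2
        omega
    obtain ⟨k, hk⟩ : ∃ k, (pol a).coeff k ≠ (pol b' * pol c').coeff k := by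
      by_contra hcon
      push Not at hcon
      exact hne (Polynomial.ext hcon)
    have hm : (pol b' * pol c').Monic := (monic_pol b').mul (monic_pol c')
    have hmd : (pol b' * pol c').natDegree = d := by
      rw [(monic_pol b').natDegree_mul (monic_pol c'), natDegree_pol, natDegree_pol]
      have := e.2
      omega
    have hkd : k < d := by
      by_contra hcon
      apply hk
      rcases (not_lt.1 hcon).eq_or_lt with h3 | h3
      · have h4 : (pol a).coeff k = 1 := by
          have := monic_pol a
          rw [Monic, leadingCoeff, natDegree_pol] at this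
          rw [← h3]
          exact this
        have h5 : (pol b' * pol c').coeff k = 1 := by
          rw [Monic, leadingCoeff, hmd] at hm
          rw [← h3]
          exact hm
        rw [h4, h5]
      · rw [coeff_eq_zero_of_natDegree_lt (by rw [natDegree_pol]; exact h3),
          coeff_eq_zero_of_natDegree_lt (by rw [hmd]; exact h3)]
    rw [coeff_pol, coeff_mul, Finset.Nat.sum_antidiagonal_eq_sum_range_succ
      (fun i j => (pol b').coeff i * (pol c').coeff j)] at hk
    obtain ⟨z, hz, hz1⟩ := exists_mul_eq_one (O := O)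
      (x := mo a k - ∑ j ∈ Finset.range (k + 1), mo b' j * mo c' (k - j)) (by
      intro h6
      rw [map_sub, map_sum, sub_eq_zero] at h6
      apply hk
      rw [h6]
      refine Finset.sum_congr rfl fun j _ => ?_
      rw [coeff_pol, coeff_pol, map_mul])
    refine ⟨⟨k, hkd⟩, z, hz, ?_⟩
    rw [← hz1]
    congr 1
    rw [AddSubgroupClass.coe_sub, coe_mo, AddSubmonoidClass.coe_finsetSum]
    congr 1
    refine Finset.sum_congr rfl fun j _ => ?_
    rw [MulMemClass.coe_mul, coe_mo, coe_mo]

end

section RH

variable {K : Type} [Field K] {O : ValuationSubring K} {k : Type} [Field k] {R : K → k}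

theorem RHo.neg (hR : RH (O : Set K) R) {x : K} (hx : x ∈ O) : R (-x) = -R x := by
  have := hR.add x hx (-x) (O.neg_mem _ hx)
  rw [add_neg_cancel, hR.zero] at this
  linear_combination -this

theorem RHo.natCast (hR : RH (O : Set K) R) (n : ℕ) : (n : K) ∈ O ∧ R n = n := by
  induction n with
  | zero => exact ⟨by simp, by simpa using hR.zero⟩
  | succ n ih =>
    refine ⟨?_, ?_⟩
    · rw [Nat.cast_succ]; exact O.add_mem _ _ ih.1 O.one_mem
    · rw [Nat.cast_succ, hR.add _ ih.1 _ O.one_mem, ih.2, hR.one, Nat.cast_succ]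

theorem RHo.sum (hR : RH (O : Set K) R) {ι : Type} (s : Finset ι) (F : ι → K)
    (hF : ∀ i ∈ s, F i ∈ O) : ∑ i ∈ s, F i ∈ O ∧ R (∑ i ∈ s, F i) = ∑ i ∈ s, R (F i) := by
  classical
  induction s using Finset.induction_on with
  | empty => exact ⟨by simp, by simpa using hR.zero⟩
  | insert a s ha ih =>
    have ih' := ih fun i hi => hF i (Finset.mem_insert_of_mem hi)
    have h1 := hF a (Finset.mem_insert_self a s)
    rw [Finset.sum_insert ha, Finset.sum_insert ha]
    exact ⟨O.add_mem _ _ h1 ih'.1, by rw [hR.add _ h1 _ ih'.1, ih'.2]⟩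

theorem mc_mem' {d : ℕ} {a : Fin d → K} (ha : ∀ i, a i ∈ O) (j : ℕ) : mc a j ∈ O := by
  unfold mc
  split_ifs
  · exact ha _
  · exact O.one_mem
  · exact O.zero_mem

/-- The residue field of a ring homomorphism defined on `O`. -/
theorem hasExt_of_extC (hR : RH (O : Set K) R) {d : ℕ} (hd : 2 ≤ d) (hE : ExtC d (O : Set K)) :
    ∃ f : k[X], Irreducible f ∧ f.Monic ∧ f.Separable ∧ f.natDegree = d := by
  classical
  obtain ⟨a, ha, hder, hfac⟩ := hE
  set f : k[X] := X ^ d + ∑ i : Fin d, C (R (a i)) * X ^ (i : ℕ) with hf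
  have hlow : (∑ i : Fin d, C (R (a i)) * X ^ (i : ℕ)).degree < ((d : ℕ) : WithBot ℕ) := by
    apply lt_of_le_of_lt (degree_sum_le _ _)
    rw [Finset.sup_lt_iff (by exact_mod_cast WithBot.bot_lt_coe d)]
    intro i _
    refine lt_of_le_of_lt (degree_C_mul_X_pow_le _ _) ?_
    exact_mod_cast i.2
  have hmon : f.Monic := monic_X_pow_add hlow
  have hdeg : f.natDegree = d := by
    apply natDegree_eq_of_degree_eq_some
    rw [hf, degree_add_eq_left_of_degree_lt (by rwa [degree_X_pow]), degree_X_pow]
  have hcoef : ∀ i : Fin d, R (a i) = f.coeff i := by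
    intro i
    rw [hf, coeff_add, coeff_X_pow, if_neg (by omega), zero_add, finsetSum_coeff]
    simp only [coeff_C_mul, coeff_X_pow]
    rw [Finset.sum_eq_single i]
    · simp
    · intro b _ hb
      have : (i : ℕ) ≠ (b : ℕ) := fun hh => hb (Fin.ext hh.symm)
      simp [this]
    · simp
  have hmc := R_mc hR hmon hdeg hcoef
  have hunit : ∀ x ∈ O, ∀ z ∈ O, x * z = 1 → R x ≠ 0 := by
    intro x hx z hz hxz h0
    have := hR.mul x hx z hz
    rw [hxz, hR.one, h0, zero_mul] at this
    exact one_ne_zero this
  have hirr : Irreducible f := by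
    rw [hmon.irreducible_iff_natDegree]
    refine ⟨fun h1 => ?_, ?_⟩
    · rw [h1, natDegree_one] at hdeg
      omega
    · intro g g' hg hg' hgg
      by_contra hcon
      push Not at hcon
      have h1 : g.natDegree + g'.natDegree = d := by
        rw [← hdeg, ← hgg, hg.natDegree_mul hg']
      have he : g.natDegree < d := by omega
      have h2 : g'.natDegree = d - g.natDegree := by omega
      choose b hb hbg using fun i : Fin g.natDegree => hR.surj (g.coeff i)
      choose c hc hcg using fun i : Fin (d - g.natDegree) => hR.surj (g'.coeff i)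
      obtain ⟨j, z, hz, hjz⟩ := hfac ⟨g.natDegree, he⟩ (Nat.pos_of_ne_zero hcon.1) b c hb hc
      have hmb := R_mc hR hg rfl hbg
      have hmc' := R_mc hR hg' h2 hcg
      have hS := RHo.sum hR (Finset.range ((j : ℕ) + 1))
        (fun i => mc b i * mc c ((j : ℕ) - i))
        (fun i _ => O.mul_mem _ _ (mc_mem' hb _) (mc_mem' hc _))
      apply hunit _ (O.add_mem _ _ (mc_mem' ha (j : ℕ)) (O.neg_mem _ hS.1)) z hz
        (by rw [← sub_eq_add_neg]; exact hjz)
      rw [hR.add _ (mc_mem' ha (j : ℕ)) _ (O.neg_mem _ hS.1), RHo.neg hR hS.1, hS.2, hmc, ← hgg,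
        coeff_mul, Finset.Nat.sum_antidiagonal_eq_sum_range_succ_mk, ← sub_eq_add_neg, sub_eq_zero]
      refine Finset.sum_congr rfl fun i _ => ?_
      rw [hR.mul _ (mc_mem' hb _) _ (mc_mem' hc _), hmb, hmc']
  have hsep : f.Separable := by
    rw [separable_iff_derivative_ne_zero hirr]
    intro h0
    obtain ⟨j, z, hz, hjz⟩ := hder
    have hn := RHo.natCast hR ((j : ℕ) + 1)
    apply hunit _ (O.mul_mem _ _ hn.1 (mc_mem' ha ((j : ℕ) + 1))) z hz hjz
    rw [hR.mul _ hn.1 _ (mc_mem' ha _), hn.2, hmc]
    have := congrArg (fun g => coeff g (j : ℕ)) h0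
    simp only [coeff_derivative, coeff_zero] at this
    push_cast
    rw [mul_comm]
    exact this
  exact ⟨f, hirr, hmon, hsep, hdeg⟩

end RH

end Pool.Agent.K4H89.NV
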