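import Pool.Agent.K4H89.NV.Pl
import Pool.Agent.K4H89.NV.Ext

/-!
# The place of a regular valuation ring does not have dimension one: the unramified case
-/

set_option autoImplicit false

namespace Pool.Agent.K4H89.NV

open Polynomial NNReal Pool.Agent.TH686.NF Pool.Agent.W882.Nip3 Pool.Agent.R492.DV

section

variable {K : Type} [Field K]

/-- The value of `t` is not divisible by `d` (all elements `t y ^ d` are not units of `Q`). -/
def NdC (d : ℕ) (t : K) (Q : Set K) : Prop :=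
  ∀ y w : K, t * y ^ d ∈ Q → w ∈ Q → t * y ^ d * w ≠ 1

/-- For every nonunit `x ≠ 0` of `Q` the value of some `t y ^ d` lies between `0` and `d v(x)`. -/
def RegC (d : ℕ) (t : K) (Q : Set K) : Prop :=
  ∀ x ∈ Q, x ≠ 0 → (∀ y ∈ Q, x * y ≠ 1) → ∃ y w : K, w ∈ Q ∧ t * y ^ d ∈ Q ∧ x ^ d = t * y ^ d * w

variable {P : Place K} {V : ValuationSubring P.F} {O : ValuationSubring K}

/-- the properties of the place and the valuation ring of its complete field -/
structure Good (P : Place K) (V : ValuationSubring P.F) (O : ValuationSubring K) (z : K) : Prop where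
  mem : ∀ (x : K) (h : x ∈ P.O), P.res ⟨x, h⟩ ∈ V ↔ x ∈ O
  near : ∀ y : P.F, y ≠ 0 → ∃ x : P.O, V.valuation (y - P.res x) < V.valuation y
  le : O ≤ P.O
  inv : z⁻¹ ∈ P.O

variable {z : K}

theorem res_inv (P : Place K) {x : K} (hx : x ∈ P.O) (hx' : x⁻¹ ∈ P.O) (h0 : x ≠ 0) :
    P.res ⟨x⁻¹, hx'⟩ = (P.res ⟨x, hx⟩)⁻¹ := by
  apply eq_inv_of_mul_eq_one_left
  rw [← map_mul, ← map_one P.res]
  congr 1
  exact Subtype.ext (inv_mul_cancel₀ h0)

theorem res_ne_zero (P : Place K) {x : K} (hx : x ∈ P.O) (hx' : x⁻¹ ∈ P.O) (h0 : x ≠ 0) :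
    P.res ⟨x, hx⟩ ≠ 0 := by
  intro h
  have h1 : P.res ⟨x, hx⟩ * P.res ⟨x⁻¹, hx'⟩ = 1 := by
    rw [← map_mul, ← map_one P.res]
    congr 1
    exact Subtype.ext (mul_inv_cancel₀ h0)
  rw [h, zero_mul] at h1
  exact zero_ne_one h1

theorem inv_mem_of_res (P : Place K) {x : K} (hx : x ∈ P.O) (h0 : P.res ⟨x, hx⟩ ≠ 0) :
    x ≠ 0 ∧ x⁻¹ ∈ P.O := by
  obtain ⟨u, hu⟩ := P.isUnit_of_res_ne_zero _ h0
  have h3 : ((u : P.O) : K) * (((u⁻¹ : (P.O)ˣ) : P.O) : K) = 1 := by
    rw [← MulMemClass.coe_mul, Units.mul_inv]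
    rfl
  rw [hu] at h3
  have h4 : (((u⁻¹ : (P.O)ˣ) : P.O) : K) = x⁻¹ := eq_inv_of_mul_eq_one_right h3
  refine ⟨?_, ?_⟩
  · rintro rfl
    rw [zero_mul] at h3
    exact zero_ne_one h3
  · rw [← h4]
    exact ((u⁻¹ : (P.O)ˣ) : P.O).2

/-- every element of the complete field has the value of an element of `K` -/
theorem Good.exists_val (h : Good P V O z) (c : P.F) (hc : c ≠ 0) :
    ∃ (x : K) (hx : x ∈ P.O), x ≠ 0 ∧ x⁻¹ ∈ P.O ∧ V.valuation c = V.valuation (P.res ⟨x, hx⟩) := by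
  obtain ⟨⟨x, hx⟩, h1⟩ := h.near c hc
  have h2 : V.valuation (P.res ⟨x, hx⟩) = V.valuation c := by
    have e1 : P.res ⟨x, hx⟩ = c - (c - P.res ⟨x, hx⟩) := by ring
    rw [e1]
    exact Valuation.map_sub_eq_of_lt_left _ h1
  have h3 : P.res ⟨x, hx⟩ ≠ 0 := by
    intro h0
    rw [h0, map_zero] at h2
    exact hc ((V.valuation.zero_iff).1 h2.symm)
  obtain ⟨h4, h5⟩ := inv_mem_of_res P hx h3
  exact ⟨x, hx, h4, h5, h2.symm⟩

/-- elements of equal value -/
theorem Good.quot_mem (h : Good P V O z) {x y : K} {hx : x ∈ P.O} {hy : y ∈ P.O} (hy' : y⁻¹ ∈ P.O)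
    (hy0 : y ≠ 0) (hv : V.valuation (P.res ⟨x, hx⟩) ≤ V.valuation (P.res ⟨y, hy⟩)) :
    x * y⁻¹ ∈ O := by
  rw [← h.mem _ (P.O.mul_mem _ _ hx hy'), ← ValuationSubring.valuation_le_one_iff]
  have e1 : P.res ⟨x * y⁻¹, P.O.mul_mem _ _ hx hy'⟩ = P.res ⟨x, hx⟩ * (P.res ⟨y, hy⟩)⁻¹ := by
    rw [← res_inv P hy hy' hy0, ← map_mul]
    rfl
  rw [e1, map_mul, map_inv₀, ← div_eq_mul_inv]
  exact div_le_one_of_le₀ hv zero_le

/-- the residue map of the valuation ring of the complete field -/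
theorem Good.exists_poly (h : Good P V O z) {d : ℕ} (hd : 2 ≤ d) (hE : ExtC d (O : Set K)) :
    ∃ g : V.valuation.valuationSubring[X], g.Monic ∧ g.natDegree = d ∧
      Irreducible (g.map (IsLocalRing.residue V.valuation.valuationSubring)) ∧
      (g.map (IsLocalRing.residue V.valuation.valuationSubring)).Separable := by
  classical
  set W := V.valuation.valuationSubring with hW
  have hmem : ∀ (x : K) (hx : x ∈ P.O), P.res ⟨x, hx⟩ ∈ W ↔ x ∈ O := by
    intro x hx
    rw [hW, Valuation.mem_valuationSubring_iff, ValuationSubring.valuation_le_one_iff]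
    exact h.mem x hx
  have hmO : ∀ (x : K) (hx : x ∈ O), P.res ⟨x, h.le hx⟩ ∈ W := fun x hx => (hmem x _).2 hx
  set R : K → IsLocalRing.ResidueField W := fun x =>
    if hx : x ∈ O then IsLocalRing.residue W ⟨P.res ⟨x, h.le hx⟩, hmO x hx⟩ else 0 with hRdef
  have hRx : ∀ (x : K) (hx : x ∈ O), R x =
      IsLocalRing.residue W ⟨P.res ⟨x, h.le hx⟩, hmO x hx⟩ := by
    intro x hx
    simp only [hRdef]
    rw [dif_pos hx]
  have hR : RH (O : Set K) R := by
    refine ⟨?_, ?_, ?_, ?_, ?_⟩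
    · intro x hx y hy
      rw [hRx x hx, hRx y hy, hRx _ (O.add_mem _ _ hx hy), ← map_add]
      congr 1
      apply Subtype.ext
      exact map_add P.res ⟨x, h.le hx⟩ ⟨y, h.le hy⟩
    · intro x hx y hy
      rw [hRx x hx, hRx y hy, hRx _ (O.mul_mem _ _ hx hy), ← map_mul]
      congr 1
      apply Subtype.ext
      exact map_mul P.res ⟨x, h.le hx⟩ ⟨y, h.le hy⟩
    · rw [hRx 1 O.one_mem, ← map_one (IsLocalRing.residue W)]
      congr 1
      apply Subtype.ext
      exact map_one P.res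
    · rw [hRx 0 O.zero_mem, ← map_zero (IsLocalRing.residue W)]
      congr 1
      apply Subtype.ext
      exact map_zero P.res
    · intro c
      obtain ⟨c, rfl⟩ := IsLocalRing.residue_surjective c
      by_cases hc0 : IsLocalRing.residue W c = 0
      · refine ⟨0, O.zero_mem, ?_⟩
        rw [hRx 0 O.zero_mem, hc0, ← map_zero (IsLocalRing.residue W)]
        congr 1
        apply Subtype.ext
        exact map_zero P.res
      · have hcne : (c : P.F) ≠ 0 := by
          intro h0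
          apply hc0
          have : c = 0 := Subtype.ext h0
          rw [this, map_zero]
        obtain ⟨⟨x, hx⟩, h1⟩ := h.near (c : P.F) hcne
        have hc1 : V.valuation (c : P.F) ≤ 1 :=
          (Valuation.mem_valuationSubring_iff _ _).1 c.2
        have hxO : x ∈ O := by
          rw [← hmem x hx, hW, Valuation.mem_valuationSubring_iff]
          have e1 : P.res ⟨x, hx⟩ = (c : P.F) - ((c : P.F) - P.res ⟨x, hx⟩) := by ring
          rw [e1]
          exact (V.valuation.map_sub _ _).trans (max_le hc1 (h1.le.trans hc1))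
        refine ⟨x, hxO, ?_⟩
        rw [hRx x hxO]
        symm
        rw [← sub_eq_zero, ← map_sub, IsLocalRing.residue_eq_zero_iff,
          IsLocalRing.mem_maximalIdeal, mem_nonunits_iff]
        intro hu
        rw [Pool.Agent.TH686.NF.isUnit_iff] at hu
        exact (h1.trans_le hc1).ne hu
  obtain ⟨f, hirr, hmon, hsep, hdeg⟩ := hasExt_of_extC hR hd hE
  have hl : f ∈ lifts (IsLocalRing.residue W) := by
    rw [lifts_iff_coeff_lifts]
    intro n
    exact IsLocalRing.residue_surjective _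
  obtain ⟨g, hg1, hg2, hg3⟩ := lifts_and_natDegree_eq_and_monic hl hmon
  exact ⟨g, hg3, by rw [hg2, hdeg], by rw [hg1]; exact hirr, by rw [hg1]; exact hsep⟩

/-- The value of `s` in the complete field is not divisible by `d`. -/
theorem Good.not_div (h : Good P V O z) {d : ℕ} (hd : 1 ≤ d) {s : K} (hs : s ∈ P.O) (hs0 : s ≠ 0)
    (hnd : NdC d s (O : Set K)) (hs' : s⁻¹ ∈ P.O) (c : P.F) :
    V.valuation (P.res ⟨s, hs⟩) ≠ V.valuation c ^ d := by
  intro hc
  have hsne := res_ne_zero P hs hs' hs0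
  have hc0 : c ≠ 0 := by
    rintro rfl
    rw [map_zero, zero_pow (by omega)] at hc
    exact hsne ((V.valuation.zero_iff).1 hc)
  obtain ⟨x, hx, hx0, hx', hval⟩ := h.exists_val c hc0
  have hxd : x ^ d ∈ P.O := pow_mem hx d
  have hxd' : (x ^ d)⁻¹ ∈ P.O := by rw [← inv_pow]; exact pow_mem hx' d
  have e1 : P.res ⟨x ^ d, hxd⟩ = P.res ⟨x, hx⟩ ^ d := by
    rw [← map_pow]
    rfl
  have e2 : V.valuation (P.res ⟨s, hs⟩) = V.valuation (P.res ⟨x ^ d, hxd⟩) := by
    rw [e1, map_pow, hc, hval]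
  have h1 := h.quot_mem (hx := hs) hxd' (pow_ne_zero _ hx0) e2.le
  have h2 := h.quot_mem (hx := hxd) hs' hs0 e2.ge
  refine hnd x⁻¹ (x ^ d * s⁻¹) (by rw [inv_pow]; exact h1) h2 ?_
  rw [inv_pow]
  field_simp

/-- The place of a regular valuation ring does not have dimension one: the unramified case. -/
theorem Good.not_dimLe_unram (h : Good P V O z) {d : ℕ} (hd : 2 ≤ d) {s : K} (hs : s ∈ P.O)
    (hs0 : s ≠ 0) (hnd : NdC d s (O : Set K)) (hs' : s⁻¹ ∈ P.O) (hE : ExtC d (O : Set K))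
    {D : ℕ} (hD : d ≤ D) : ¬ DimLeOneUpTo P.F D := by
  obtain ⟨g, hg, hgd, hirr, hsep⟩ := h.exists_poly hd hE
  refine not_dimLe V.valuation g hg hirr hsep (a := P.res ⟨s, hs⟩) (res_ne_zero P hs hs' hs0)
    (fun c => ?_) (by omega) (by omega)
  rw [hgd]
  exact h.not_div (by omega) hs hs0 hnd hs' c

end

end Pool.Agent.K4H89.NV
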