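import Pool.Agent.K4H89.NV.Bad
import Pool.Agent.K4H89.NV.Ram

/-!
# The place of a regular valuation ring does not have dimension one: the ramified case
-/

set_option autoImplicit false

namespace Pool.Agent.K4H89.NV

open Polynomial NNReal Pool.Agent.TH686.NF Pool.Agent.W882.Nip3 Pool.Agent.R492.DV

section

variable {K : Type} [Field K]

theorem NdC.mul_pow {d : ℕ} {t : K} {Q : Set K} (h : NdC d t Q) (y : K) : NdC d (t * y ^ d) Q := by
  intro u w h1 h2 h3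
  refine h (y * u) w ?_ h2 ?_
  · rw [_root_.mul_pow, ← mul_assoc]
    exact h1
  · rw [_root_.mul_pow, ← mul_assoc]
    exact h3

theorem ndC_all {ℓ : ℕ} (hℓ : 0 < ℓ) {t s : K} {Q : Set K} (h : ∀ i : Fin ℓ, NdC ℓ (t ^ (i : ℕ) * s) Q)
    (i : ℕ) : NdC ℓ (t ^ i * s) Q := by
  have h1 := (h ⟨i % ℓ, Nat.mod_lt _ hℓ⟩).mul_pow (t ^ (i / ℓ))
  have e1 : t ^ (i % ℓ) * s * (t ^ (i / ℓ)) ^ ℓ = t ^ i * s := by
    conv_rhs => rw [← Nat.mod_add_div i ℓ, pow_add, pow_mul']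
    ring
  simp only at h1
  rwa [e1] at h1

variable {P : Place K} {V : ValuationSubring P.F} {O : ValuationSubring K} {z : K}

/-- The place of a regular valuation ring does not have dimension one: the ramified case. -/
theorem Good.not_dimLe_ram (h : Good P V O z) {ℓ : ℕ} (hℓ : ℓ.Prime) {a b : K}
    (ha : a ∈ P.O) (ha0 : a ≠ 0) (ha' : a⁻¹ ∈ P.O) (hb : b ∈ P.O) (hb0 : b ≠ 0) (hb' : b⁻¹ ∈ P.O)
    (hna : NdC ℓ a (O : Set K)) (hnb : ∀ i : ℕ, NdC ℓ (a ^ i * b) (O : Set K))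
    {D : ℕ} (hD : ℓ ≤ D) : ¬ DimLeOneUpTo P.F D := by
  obtain ⟨B, hB⟩ := exists_extension (algebraMap P.F (AlgebraicClosure P.F)) V
  have hle : ∀ x y : P.F, B.valuation (algebraMap P.F (AlgebraicClosure P.F) x) =
      B.valuation (algebraMap P.F (AlgebraicClosure P.F) y) → V.valuation x = V.valuation y := by
    intro x y hxy
    by_cases hy : y = 0
    · rw [hy, map_zero, map_zero, B.valuation.zero_iff, map_eq_zero] at hxy
      rw [hxy, hy]
    by_cases hx : x = 0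
    · rw [hx, map_zero, map_zero, eq_comm, B.valuation.zero_iff, map_eq_zero] at hxy
      rw [hxy, hx]
    have key : ∀ x y : P.F, x ≠ 0 → y ≠ 0 →
        B.valuation (algebraMap P.F (AlgebraicClosure P.F) x) =
        B.valuation (algebraMap P.F (AlgebraicClosure P.F) y) → V.valuation x ≤ V.valuation y := by
      intro x y hx hy hxy
      have hy' : B.valuation (algebraMap P.F (AlgebraicClosure P.F) y) ≠ 0 :=
        (Valuation.ne_zero_iff _).2 (by rwa [Ne, map_eq_zero])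
      have hVy : V.valuation y ≠ 0 := (Valuation.ne_zero_iff _).2 hy
      have h1 : algebraMap P.F (AlgebraicClosure P.F) (x / y) ∈ B := by
        rw [← ValuationSubring.valuation_le_one_iff, map_div₀, map_div₀, hxy, div_self hy']
      rw [hB, ← ValuationSubring.valuation_le_one_iff, map_div₀] at h1
      exact (div_le_one₀ (zero_lt_iff.2 hVy)).1 h1
    exact le_antisymm (key x y hx hy hxy) (key y x hy hx hxy.symm)
  refine ram_not_dimLe' B.valuation hℓ (a := P.res ⟨a, ha⟩) (b := P.res ⟨b, hb⟩)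
    (res_ne_zero P ha ha' ha0) (fun c hc => ?_) (fun c i hc => ?_) hD
  · rw [← map_pow, ← map_pow] at hc
    have h1 := hle _ _ hc
    rw [map_pow] at h1
    exact h.not_div hℓ.one_le ha ha0 hna ha' c h1
  · rw [← map_pow, ← map_pow, ← map_pow, ← map_pow, ← map_mul, ← map_mul] at hc
    have h1 := hle _ _ hc
    have hbne := res_ne_zero P hb hb' hb0
    have hc0 : c ≠ 0 := by
      rintro rfl
      rw [zero_pow hℓ.ne_zero, zero_mul, map_zero] at h1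
      exact hbne ((V.valuation.zero_iff).1 h1)
    obtain ⟨x, hx, hx0, hx', hval⟩ := h.exists_val c hc0
    have hu : x ^ ℓ * a ^ i ∈ P.O := P.O.mul_mem _ _ (pow_mem hx _) (pow_mem ha _)
    have hu' : (x ^ ℓ * a ^ i)⁻¹ ∈ P.O := by
      rw [mul_inv, ← inv_pow, ← inv_pow]
      exact P.O.mul_mem _ _ (pow_mem hx' _) (pow_mem ha' _)
    have hu0 : x ^ ℓ * a ^ i ≠ 0 := mul_ne_zero (pow_ne_zero _ hx0) (pow_ne_zero _ ha0)
    have e1 : P.res ⟨x ^ ℓ * a ^ i, hu⟩ = P.res ⟨x, hx⟩ ^ ℓ * P.res ⟨a, ha⟩ ^ i := by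
      rw [← map_pow, ← map_pow, ← map_mul]
      rfl
    have e2 : V.valuation (P.res ⟨b, hb⟩) = V.valuation (P.res ⟨x ^ ℓ * a ^ i, hu⟩) := by
      rw [e1, map_mul, map_pow, h1, map_mul, map_pow, hval]
    have h2 := h.quot_mem (hx := hb) hu' hu0 e2.le
    have h3 := h.quot_mem (hx := hu) hb' hb0 e2.ge
    obtain ⟨m, hm⟩ : ∃ m, ℓ = m + 1 := ⟨ℓ - 1, by have := hℓ.pos; omega⟩
    have e3 : a ^ (m * i) * b * (x⁻¹ * (a⁻¹) ^ i) ^ ℓ = b * (x ^ ℓ * a ^ i)⁻¹ := by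
      have e4 : ((a⁻¹) ^ i) ^ ℓ = (a⁻¹) ^ i * (a⁻¹) ^ (m * i) := by
        rw [← pow_mul, ← pow_add, hm]
        congr 1
        ring
      have e5 : a ^ (m * i) * (a⁻¹) ^ (m * i) = 1 := by
        rw [← _root_.mul_pow, mul_inv_cancel₀ ha0, one_pow]
      calc a ^ (m * i) * b * (x⁻¹ * (a⁻¹) ^ i) ^ ℓ
          = (a ^ (m * i) * (a⁻¹) ^ (m * i)) * (b * ((x⁻¹) ^ ℓ * (a⁻¹) ^ i)) := by
            rw [_root_.mul_pow, e4]; ring
        _ = _ := by rw [e5, one_mul, mul_inv, inv_pow, inv_pow]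
    refine hnb (m * i) (x⁻¹ * (a⁻¹) ^ i) (x ^ ℓ * a ^ i * b⁻¹) (by rw [e3]; exact h2) h3 ?_
    rw [e3]
    calc b * (x ^ ℓ * a ^ i)⁻¹ * (x ^ ℓ * a ^ i * b⁻¹)
        = (b * b⁻¹) * ((x ^ ℓ * a ^ i)⁻¹ * (x ^ ℓ * a ^ i)) := by ring
      _ = 1 := by rw [mul_inv_cancel₀ hb0, inv_mul_cancel₀ hu0, one_mul]

/-- The first-order properties of the valuation rings in the theorem, with two constants. -/
structure BrSet (d : ℕ) (t s : K) (Q : Set K) : Prop where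
  one : (1 : K) ∈ Q
  add : ∀ x ∈ Q, ∀ y ∈ Q, x + y ∈ Q
  neg : ∀ x ∈ Q, -x ∈ Q
  mul : ∀ x ∈ Q, ∀ y ∈ Q, x * y ∈ Q
  total : ∀ x y : K, x * y = 1 → x ∈ Q ∨ y ∈ Q
  ne : t ≠ 0
  nd : NdC d t Q
  reg : RegC d t Q
  alt : ExtC d Q ∨ (d.Prime ∧ s ≠ 0 ∧ RegC d s Q ∧ ∀ i : Fin d, NdC d (t ^ (i : ℕ) * s) Q)

/-- the valuation ring of such a set -/
def BrSet.toVS {d : ℕ} {t s : K} {Q : Set K} (h : BrSet d t s Q) : ValuationSubring K where
  carrier := Q
  mul_mem' := fun {x y} hx hy => h.mul x hx y hy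
  one_mem' := h.one
  add_mem' := fun {x y} hx hy => h.add x hx y hy
  zero_mem' := by
    have h1 := h.add 1 h.one (-1) (h.neg 1 h.one)
    rwa [add_neg_cancel] at h1
  neg_mem' := fun {x} hx => h.neg x hx
  mem_or_inv_mem' := fun x => by
    by_cases hx : x = 0
    · left
      rw [hx]
      have h1 := h.add 1 h.one (-1) (h.neg 1 h.one)
      rwa [add_neg_cancel] at h1
    · exact h.total x x⁻¹ (mul_inv_cancel₀ hx)

theorem BrSet.mem_toVS {d : ℕ} {t s : K} {Q : Set K} (h : BrSet d t s Q) {x : K} :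
    x ∈ h.toVS ↔ x ∈ Q := Iff.rfl

/-- nonunits -/
theorem nonunit_iff {O : ValuationSubring K} {x : K} (hx0 : x ≠ 0) :
    (∀ y ∈ O, x * y ≠ 1) ↔ x⁻¹ ∉ O := by
  constructor
  · intro h h1
    exact h _ h1 (mul_inv_cancel₀ hx0)
  · intro h y hy hxy
    apply h
    rwa [← eq_inv_of_mul_eq_one_right hxy]

/-- The bad place. -/
theorem bad_place {d : ℕ} (hd : 2 ≤ d) {t s : K} {Q : Set K} (h : BrSet d t s Q) {z : K}
    (hz : z ∈ h.toVS) (hz0 : z ≠ 0) (hzn : z⁻¹ ∉ h.toVS) :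
    ∃ P : Place K, (∀ w ∈ Q, P.Small (z * w)) ∧ ¬ DimLeOneUpTo P.F d := by
  obtain ⟨P, V, h1, h2, h3, h4, h5⟩ := exists_place h.toVS z hz hz0 hzn
  have hG : Good P V h.toVS z := ⟨h1, h2, h4, h5⟩
  refine ⟨P, h3, ?_⟩
  have hzP := h4 hz
  -- adjust an element
  have adj : ∀ t : K, RegC d t Q → ∃ y : K, t * y ^ d ∈ P.O ∧ t * y ^ d ≠ 0 ∧
      (t * y ^ d)⁻¹ ∈ P.O := by
    intro t ht
    obtain ⟨y, w, hw, hy, hzy⟩ := ht z hz hz0 ((nonunit_iff (O := h.toVS) hz0).2 hzn)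
    have hne : t * y ^ d ≠ 0 := by
      intro h0
      rw [h0, zero_mul] at hzy
      exact pow_ne_zero _ hz0 hzy
    refine ⟨y, h4 hy, hne, ?_⟩
    have e1 : (t * y ^ d)⁻¹ = w * (z⁻¹) ^ d := by
      rw [inv_pow, hzy]
      have hw0 : w ≠ 0 := by
        rintro rfl
        rw [mul_zero] at hzy
        exact pow_ne_zero _ hz0 hzy
      rw [mul_inv (t * y ^ d) w, mul_comm w, mul_assoc, inv_mul_cancel₀ hw0, mul_one]
    rw [e1]
    exact P.O.mul_mem _ _ (h4 hw) (pow_mem h5 _)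
  obtain ⟨y, hy1, hy2, hy3⟩ := adj t h.reg
  have hnd : NdC d (t * y ^ d) (h.toVS : Set K) := h.nd.mul_pow y
  rcases h.alt with hE | ⟨hp, hs0, hreg, hndi⟩
  · exact hG.not_dimLe_unram hd hy1 hy2 hnd hy3 hE le_rfl
  · obtain ⟨y', hy1', hy2', hy3'⟩ := adj s hreg
    refine hG.not_dimLe_ram hp hy1 hy2 hy3 hy1' hy2' hy3' hnd (fun i => ?_) le_rfl
    have h6 := (ndC_all hp.pos hndi i).mul_pow (y ^ i * y')
    have e1 : t ^ i * s * (y ^ i * y') ^ d = (t * y ^ d) ^ i * (s * y' ^ d) := by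
      rw [_root_.mul_pow, _root_.mul_pow, ← pow_mul, ← pow_mul, mul_comm i d]
      ring
    rw [e1] at h6
    exact h6

end

end Pool.Agent.K4H89.NV
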