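import Pool.Agent.TH686.NF.Compl

/-!
# Composite valuation rings of completions
-/

set_option autoImplicit false

namespace Pool.Agent.K4H89.NV

open NNReal Pool.Agent.TH686.NF

section

variable {κ : Type} [Field κ] (v : Valuation κ ℝ≥0) (W : ValuationSubring κ)

theorem norm_add_lt_one {x y : Cp v} (hx : ‖x‖ < 1) (hy : ‖y‖ < 1) : ‖x + y‖ < 1 :=
  (IsUltrametricDist.norm_add_le_max x y).trans_lt (max_lt hx hy)

theorem norm_mul_lt_one {x y : Cp v} (hx : ‖x‖ < 1) (hy : ‖y‖ ≤ 1) : ‖x * y‖ < 1 := by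
  rw [norm_mul]
  calc ‖x‖ * ‖y‖ ≤ ‖x‖ * 1 := by gcongr
    _ < 1 := by rwa [mul_one]

/-- The ring of the elements of the completion which are congruent to an element of `W`. -/
noncomputable def compRing (h1 : ∀ x ∈ W, v x ≤ 1) : ValuationSubring (Cp v) where
  carrier := {y | ∃ a ∈ W, ‖y - emb v a‖ < 1}
  mul_mem' := by
    rintro x y ⟨a, ha, hxa⟩ ⟨b, hb, hyb⟩
    refine ⟨a * b, W.mul_mem _ _ ha hb, ?_⟩
    have e1 : x * y - emb v (a * b) = (x - emb v a) * y + emb v a * (y - emb v b) := by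
      rw [map_mul]; ring
    have hb1 : ‖emb v b‖ ≤ 1 := by rw [norm_emb]; exact_mod_cast h1 b hb
    have ha1 : ‖emb v a‖ ≤ 1 := by rw [norm_emb]; exact_mod_cast h1 a ha
    have hy1 : ‖y‖ ≤ 1 := by
      have : y = (y - emb v b) + emb v b := by ring
      rw [this]
      exact (IsUltrametricDist.norm_add_le_max _ _).trans (max_le hyb.le hb1)
    rw [e1]
    refine norm_add_lt_one v (norm_mul_lt_one v hxa hy1) ?_
    rw [mul_comm]
    exact norm_mul_lt_one v hyb ha1
  one_mem' := ⟨1, W.one_mem, by rw [map_one, sub_self, norm_zero]; exact one_pos⟩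
  add_mem' := by
    rintro x y ⟨a, ha, hxa⟩ ⟨b, hb, hyb⟩
    refine ⟨a + b, W.add_mem _ _ ha hb, ?_⟩
    have e1 : x + y - emb v (a + b) = (x - emb v a) + (y - emb v b) := by
      rw [map_add]; ring
    rw [e1]
    exact norm_add_lt_one v hxa hyb
  zero_mem' := ⟨0, W.zero_mem, by rw [map_zero, sub_self, norm_zero]; exact one_pos⟩
  neg_mem' := by
    rintro x ⟨a, ha, hxa⟩
    refine ⟨-a, W.neg_mem _ ha, ?_⟩
    have e1 : -x - emb v (-a) = -(x - emb v a) := by
      rw [map_neg]; ring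
    rw [e1, norm_neg]
    exact hxa
  mem_or_inv_mem' := by
    intro y
    have hz : ∀ y : Cp v, ‖y‖ < 1 → ∃ a ∈ W, ‖y - emb v a‖ < 1 := fun y hy =>
      ⟨0, W.zero_mem, by rwa [map_zero, sub_zero]⟩
    rcases lt_trichotomy ‖y‖ 1 with h | h | h
    · exact Or.inl (hz y h)
    · have hy0 : y ≠ 0 := by
        rintro rfl
        rw [norm_zero] at h
        exact zero_ne_one h
      obtain ⟨b, hb⟩ := (dense_emb v).exists_dist_lt y one_pos
      rw [dist_eq_norm] at hb
      have hb1 : ‖emb v b‖ = 1 := by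
        have e1 : emb v b = y + -(y - emb v b) := by ring
        rw [e1, IsUltrametricDist.norm_add_eq_max_of_norm_ne_norm
          (by rw [h, norm_neg]; exact hb.ne'), h, norm_neg]
        exact max_eq_left hb.le
      rcases W.mem_or_inv_mem b with h2 | h2
      · exact Or.inl ⟨b, h2, hb⟩
      · refine Or.inr ⟨b⁻¹, h2, ?_⟩
        have hb0 : emb v b ≠ 0 := by
          intro h0
          rw [h0, norm_zero] at hb1
          exact zero_ne_one hb1
        have e1 : y⁻¹ - emb v b⁻¹ = -((y - emb v b) * (y⁻¹ * (emb v b)⁻¹)) := by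
          rw [map_inv₀]
          field_simp
          ring
        rw [e1, norm_neg]
        refine norm_mul_lt_one v hb ?_
        rw [norm_mul, norm_inv, norm_inv, h, hb1]
        norm_num
    · refine Or.inr (hz _ ?_)
      rw [norm_inv]
      exact inv_lt_one_of_one_lt₀ h

variable {v W}

theorem mem_compRing {h1 : ∀ x ∈ W, v x ≤ 1} {y : Cp v} :
    y ∈ compRing v W h1 ↔ ∃ a ∈ W, ‖y - emb v a‖ < 1 := Iff.rfl

theorem emb_mem_compRing {h1 : ∀ x ∈ W, v x ≤ 1} (h2 : ∀ x, v x < 1 → x ∈ W) (x : κ) :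
    emb v x ∈ compRing v W h1 ↔ x ∈ W := by
  rw [mem_compRing]
  constructor
  · rintro ⟨a, ha, h⟩
    rw [← map_sub, norm_emb] at h
    have h3 := W.add_mem _ _ (h2 _ (by exact_mod_cast h)) ha
    rwa [sub_add_cancel] at h3
  · intro hx
    exact ⟨x, hx, by rw [sub_self, norm_zero]; exact one_pos⟩

theorem norm_le_of_mem {h1 : ∀ x ∈ W, v x ≤ 1} {y : Cp v} (hy : y ∈ compRing v W h1) :
    ‖y‖ ≤ 1 := by
  obtain ⟨a, ha, h⟩ := mem_compRing.1 hy
  have : y = (y - emb v a) + emb v a := by ring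
  rw [this]
  refine (IsUltrametricDist.norm_add_le_max _ _).trans (max_le h.le ?_)
  rw [norm_emb]
  exact_mod_cast h1 a ha

theorem near_compRing {h1 : ∀ x ∈ W, v x ≤ 1} (y : Cp v) (hy : y ≠ 0) :
    ∃ x : κ, (compRing v W h1).valuation (y - emb v x) < (compRing v W h1).valuation y := by
  obtain ⟨x, hx⟩ := (dense_emb v).exists_dist_lt y (norm_pos_iff.2 hy)
  rw [dist_eq_norm] at hx
  refine ⟨x, ?_⟩
  have hy' : (compRing v W h1).valuation y ≠ 0 := (Valuation.ne_zero_iff _).2 hy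
  by_contra hcon
  rw [not_lt] at hcon
  have h3 : y - emb v x ≠ 0 := by
    intro h0
    rw [h0, map_zero] at hcon
    exact hy' (le_antisymm hcon zero_le)
  have h4 : y / (y - emb v x) ∈ compRing v W h1 := by
    rw [← ValuationSubring.valuation_le_one_iff, map_div₀]
    exact div_le_one_of_le₀ hcon zero_le
  have h5 := norm_le_of_mem h4
  rw [norm_div, div_le_one (norm_pos_iff.2 h3)] at h5
  exact absurd hx (not_lt.2 h5)

end

end Pool.Agent.K4H89.NV
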