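import Pool.Agent.K4H89.NV.Bad2
import Pool.Agent.R492.DW.W3
import Pool.Agent.Results.MP_3554b5_lc.FewBadPlaces

/-!
# There are few regular branching valuation rings
-/

set_option autoImplicit false

namespace Pool.Agent.K4H89.NV

open FirstOrder FirstOrder.Language FirstOrder.Ring
open Pool.Agent.W882.Nip3 Pool.Agent.R492.DV Pool.Agent.R492.DW

section inc

variable {K : Type} [Field K] {d : ℕ} {t s s' : K} {Q Q₁ Q₂ : Set K}

/-- If one of two rings with the same element `t` contains the other one, they are equal. -/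
theorem not_ssubset_br (h1 : BrSet d t s Q₁) (h2 : BrSet d t s' Q₂) (hs : Q₁ ⊆ Q₂) : Q₂ ⊆ Q₁ := by
  intro x hx2
  by_contra hx1
  have hx0 : x ≠ 0 := by
    rintro rfl
    exact hx1 (h1.toVS.zero_mem)
  have hxi : x⁻¹ ∈ Q₁ := by
    rcases h1.toVS.mem_or_inv_mem x with h | h
    · exact (hx1 h).elim
    · exact h
  obtain ⟨y, w, hw, hy, he⟩ := h1.reg x⁻¹ hxi (inv_ne_zero hx0)
    ((nonunit_iff (O := h1.toVS) (inv_ne_zero hx0)).2 (by rw [inv_inv]; exact hx1))
  refine h2.nd y (w * x ^ d) (hs hy) (h2.mul _ (hs hw) _ ?_) ?_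
  · exact pow_mem (S := h2.toVS) hx2 d
  · rw [← mul_assoc, ← he, ← mul_pow, inv_mul_cancel₀ hx0, one_pow]

/-- incomparable valuation rings -/
theorem incomparable {O₁ O₂ : ValuationSubring K} (h12 : ¬ O₁ ≤ O₂) (h21 : ¬ O₂ ≤ O₁) :
    ∃ x : K, x ≠ 0 ∧ x⁻¹ ∉ O₁ ∧ x ∉ O₂ := by
  obtain ⟨a, ha1, ha2⟩ := Set.not_subset.1 h12
  obtain ⟨b, hb2, hb1⟩ := Set.not_subset.1 h21
  have ha0 : a ≠ 0 := by
    rintro rfl
    exact ha2 O₂.zero_mem
  have hb0 : b ≠ 0 := by
    rintro rfl
    exact hb1 O₁.zero_mem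
  refine ⟨a / b, div_ne_zero ha0 hb0, fun h => hb1 ?_, fun h => ha2 ?_⟩
  · have h3 := O₁.mul_mem _ _ h ha1
    have e1 : (a / b)⁻¹ * a = b := by field_simp
    rw [e1] at h3
    exact h3
  · have h3 := O₂.mul_mem _ _ h hb2
    have e1 : a / b * b = a := by field_simp
    rw [e1] at h3
    exact h3

/-- Finitely many elements are divisible by one of them. -/
theorem exists_min (O : ValuationSubring K) {ι : Type} (S : Finset ι) (hS : S.Nonempty) (f : ι → K) :
    ∃ i ∈ S, ∀ j ∈ S, ∃ w ∈ O, f j = f i * w := by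
  obtain ⟨i, hi, hmax⟩ := S.exists_max_image (fun i => O.valuation (f i)) hS
  refine ⟨i, hi, fun j hj => ?_⟩
  by_cases h0 : f i = 0
  · have h1 := hmax j hj
    rw [h0, map_zero] at h1
    have h2 : f j = 0 := (O.valuation.zero_iff).1 (le_antisymm h1 zero_le)
    exact ⟨0, O.zero_mem, by rw [h2, mul_zero]⟩
  · refine ⟨f j / f i, ?_, by field_simp⟩
    rw [← ValuationSubring.valuation_le_one_iff, map_div₀]
    exact div_le_one_of_le₀ (hmax j hj) zero_le

/-- There are not `N` pairwise incomparable rings. -/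
theorem not_incomparable {N : ℕ} (hd : 2 ≤ d)
    (hN : ∀ P : Fin N → Place K, (Pairwise fun i j => (P i).Incomparable (P j)) →
        ∃ i, DimLeOneUpTo (P i).F d)
    (t s : Fin N → K) (Q : Fin N → Set K) (hQ : ∀ i, BrSet d (t i) (s i) (Q i)) :
    ¬ Pairwise fun i j => ¬ Q i ⊆ Q j := by
  classical
  intro hinc
  have hx : ∀ i j, i ≠ j → ∃ x : K, x ≠ 0 ∧ x⁻¹ ∉ (hQ i).toVS ∧ x ∉ (hQ j).toVS := fun i j hij =>
    incomparable (O₁ := (hQ i).toVS) (O₂ := (hQ j).toVS) (hinc hij) (hinc hij.symm)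
  choose x hx0 hx1 hx2 using hx
  -- a nonunit of each ring
  have hz0 : ∀ i, ∃ z : K, z ≠ 0 ∧ z⁻¹ ∉ (hQ i).toVS := by
    intro i
    by_contra hcon
    push Not at hcon
    have h1 : ∀ y : K, y ∈ Q i := by
      intro y
      by_cases hy : y = 0
      · rw [hy]
        exact (hQ i).toVS.zero_mem
      · have := hcon y⁻¹ (inv_ne_zero hy)
        rwa [inv_inv] at this
    refine (hQ i).nd 1 (t i)⁻¹ (h1 _) (h1 _) ?_
    rw [one_pow, mul_one, mul_inv_cancel₀ (hQ i).ne]
  choose z0 hz00 hz01 using hz0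
  -- the elements
  let f : Fin N → Fin N ⊕ (Fin N ⊕ Fin N) → K := fun i => Sum.elim (fun _ => z0 i)
    (Sum.elim (fun j => if h : i ≠ j then x i j h else z0 i)
      (fun j => if h : j ≠ i then (x j i h)⁻¹ else z0 i))
  have hf0 : ∀ i k, f i k ≠ 0 ∧ (f i k)⁻¹ ∉ (hQ i).toVS := by
    intro i k
    rcases k with k | k | k
    · exact ⟨hz00 i, hz01 i⟩
    · by_cases h : i ≠ k
      · simp only [f, Sum.elim_inr, Sum.elim_inl, dif_pos h]
        exact ⟨hx0 i k h, hx1 i k h⟩
      · simp only [f, Sum.elim_inr, Sum.elim_inl, dif_neg h]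
        exact ⟨hz00 i, hz01 i⟩
    · by_cases h : k ≠ i
      · simp only [f, Sum.elim_inr, dif_pos h]
        refine ⟨inv_ne_zero (hx0 k i h), ?_⟩
        rw [inv_inv]
        exact hx2 k i h
      · simp only [f, Sum.elim_inr, dif_neg h]
        exact ⟨hz00 i, hz01 i⟩
  have hz : ∀ i, ∃ k, ∀ j, ∃ w ∈ (hQ i).toVS, f i j = f i k * w := by
    intro i
    obtain ⟨k, -, hk⟩ := exists_min (hQ i).toVS (Finset.univ : Finset (Fin N ⊕ (Fin N ⊕ Fin N)))
      ⟨Sum.inl i, Finset.mem_univ _⟩ (f i)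
    exact ⟨k, fun j => hk j (Finset.mem_univ _)⟩
  choose k hk using hz
  have hzm : ∀ i, f i (k i) ∈ (hQ i).toVS := by
    intro i
    rcases (hQ i).toVS.mem_or_inv_mem (f i (k i)) with h | h
    · exact h
    · exact ((hf0 i (k i)).2 h).elim
  choose P hP1 hP2 using fun i => bad_place hd (hQ i) (hzm i) (hf0 i (k i)).1 (hf0 i (k i)).2
  have hsm : ∀ i j, (P i).Small (f i j) := by
    intro i j
    obtain ⟨w, hw, he⟩ := hk i j
    rw [he]
    exact hP1 i w hw
  obtain ⟨i, hi⟩ := hN P (by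
    intro i j hij
    refine ⟨x i j hij, hx0 i j hij, ?_, ?_⟩
    · have h1 := hsm i (Sum.inr (Sum.inl j))
      simp only [f, Sum.elim_inr, Sum.elim_inl, dif_pos hij] at h1
      exact h1
    · have h1 := hsm j (Sum.inr (Sum.inr i))
      simp only [f, Sum.elim_inr, dif_pos hij] at h1
      exact h1)
  exact hP2 i hi

/-- There are fewer than `N` rings with the same `t`. -/
theorem not_injective_br {N : ℕ} (hd : 2 ≤ d)
    (hN : ∀ P : Fin N → Place K, (Pairwise fun i j => (P i).Incomparable (P j)) →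
        ∃ i, DimLeOneUpTo (P i).F d)
    (t : K) (s : Fin N → K) (Q : Fin N → Set K) (hQ : ∀ i, BrSet d t (s i) (Q i)) :
    ¬ Function.Injective Q := by
  intro hinj
  refine not_incomparable hd hN (fun _ => t) s Q hQ fun i j hij hsub => hij (hinj ?_)
  exact Set.Subset.antisymm hsub (not_ssubset_br (hQ i) (hQ j) hsub)

end inc

section fo

open F1 E1

/-- The valuation ring clauses. -/
noncomputable def vF : BF 0 := sOne ⊓ (sAdd ⊓ (sNeg ⊓ (sMul ⊓ sTotal)))

/-- The formula for `t ≠ 0`. -/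
def neF (c : Fin 2) : BF 2 := (eqF (F1.var c) 0).not

/-- The clause `NdC` for a term. -/
noncomputable def ndF (d i : ℕ) : BF 2 :=
  ∀' ∀' ((inP (n := 4) (powT (F1.var 0) i * F1.var 1 * powT (F1.var 2) d)).imp
    ((inP (n := 4) (F1.var 3)).imp
      (eqF (n := 4) (powT (F1.var 0) i * F1.var 1 * powT (F1.var 2) d * F1.var 3) 1).not))

/-- The clause `NdC` for the first constant. -/
noncomputable def ndF0 (d : ℕ) : BF 2 :=
  ∀' ∀' ((inP (n := 4) (F1.var 0 * powT (F1.var 2) d)).imp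
    ((inP (n := 4) (F1.var 3)).imp
      (eqF (n := 4) (F1.var 0 * powT (F1.var 2) d * F1.var 3) 1).not))

/-- The clause `RegC` for the first constant. -/
noncomputable def regF0 (d : ℕ) : BF 2 :=
  ∀' ((inP (n := 3) (F1.var 2)).imp ((eqF (n := 3) (F1.var 2) 0).not.imp
    ((∀' ((inP (n := 4) (F1.var 3)).imp (eqF (n := 4) (F1.var 2 * F1.var 3) 1).not)).imp
      (∃' ∃' (inP (n := 5) (F1.var 4) ⊓ (inP (n := 5) (F1.var 0 * powT (F1.var 3) d) ⊓
        eqF (n := 5) (powT (F1.var 2) d) (F1.var 0 * powT (F1.var 3) d * F1.var 4)))))))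

/-- The clause `RegC` for the second constant. -/
noncomputable def regF1 (d : ℕ) : BF 2 :=
  ∀' ((inP (n := 3) (F1.var 2)).imp ((eqF (n := 3) (F1.var 2) 0).not.imp
    ((∀' ((inP (n := 4) (F1.var 3)).imp (eqF (n := 4) (F1.var 2 * F1.var 3) 1).not)).imp
      (∃' ∃' (inP (n := 5) (F1.var 4) ⊓ (inP (n := 5) (F1.var 1 * powT (F1.var 3) d) ⊓
        eqF (n := 5) (powT (F1.var 2) d) (F1.var 1 * powT (F1.var 3) d * F1.var 4)))))))

variable {K : Type} [Field K] [CompatibleRing K]

theorem realize_vF (Q : Fin 1 → Set K) (v : Empty → K) (xs : Fin 0 → K) :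
    (letI := ul Q; vF.Realize v xs) ↔ ((1 : K) ∈ Q 0 ∧ (∀ x ∈ Q 0, ∀ y ∈ Q 0, x + y ∈ Q 0) ∧
      (∀ x ∈ Q 0, -x ∈ Q 0) ∧ (∀ x ∈ Q 0, ∀ y ∈ Q 0, x * y ∈ Q 0) ∧
      (∀ x y : K, x * y = 1 → x ∈ Q 0 ∨ y ∈ Q 0)) := by
  let _ := ul Q
  show vF.Realize v xs ↔ _
  have hE : ∀ {n : ℕ} (t₁ t₂ : RT n) (v : Empty → K) (xs : Fin n → K),
      (eqF t₁ t₂).Realize v xs ↔
      t₁.realize (Sum.elim v xs) = t₂.realize (Sum.elim v xs) := realize_eqF Q
  have hP : ∀ {n : ℕ} (t : RT n) (v : Empty → K) (xs : Fin n → K),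
      (inP t).Realize v xs ↔ t.realize (Sum.elim v xs) ∈ Q 0 := realize_inP Q
  have h1 : (sOne).Realize v xs ↔ (1 : K) ∈ Q 0 := by
    simp [sOne, hP]
  have h2 : (sAdd).Realize v xs ↔ ∀ x ∈ Q 0, ∀ y ∈ Q 0, x + y ∈ Q 0 := by
    simp only [sAdd, BoundedFormula.realize_all, BoundedFormula.realize_imp, hP, realize_add,
      realize_var']
    exact ⟨fun h x hx y hy => h x y hx hy, fun h x y hx hy => h x hx y hy⟩
  have h3 : (sNeg).Realize v xs ↔ ∀ x ∈ Q 0, -x ∈ Q 0 := by
    simp only [sNeg, BoundedFormula.realize_all, BoundedFormula.realize_imp, hP, realize_neg,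
      realize_var']
    exact ⟨fun h x hx => h x hx, fun h x hx => h x hx⟩
  have h4 : (sMul).Realize v xs ↔ ∀ x ∈ Q 0, ∀ y ∈ Q 0, x * y ∈ Q 0 := by
    simp only [sMul, BoundedFormula.realize_all, BoundedFormula.realize_imp, hP, realize_mul,
      realize_var']
    exact ⟨fun h x hx y hy => h x y hx hy, fun h x y hx hy => h x hx y hy⟩
  have h5 : (sTotal).Realize v xs ↔ ∀ x y : K, x * y = 1 → x ∈ Q 0 ∨ y ∈ Q 0 := by
    simp only [sTotal, BoundedFormula.realize_all, BoundedFormula.realize_imp,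
      BoundedFormula.realize_sup, hP, hE, realize_mul, realize_var', realize_one]
    exact ⟨fun h x y => h x y, fun h x y => h x y⟩
  simp only [vF, BoundedFormula.realize_inf, h1, h2, h3, h4, h5]

theorem realize_neF (Q : Fin 1 → Set K) (c : Fin 2) (v : Empty → K) (t : Fin 2 → K) :
    (letI := ul Q; (neF c).Realize v t) ↔ t c ≠ 0 := by
  let _ := ul Q
  show (neF c).Realize v t ↔ _
  have hE : ∀ {n : ℕ} (t₁ t₂ : RT n) (v : Empty → K) (xs : Fin n → K),
      (eqF t₁ t₂).Realize v xs ↔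
      t₁.realize (Sum.elim v xs) = t₂.realize (Sum.elim v xs) := realize_eqF Q
  simp only [neF, BoundedFormula.realize_not, hE, realize_var', realize_zero, ne_eq]

theorem realize_ndF (Q : Fin 1 → Set K) (d i : ℕ) (v : Empty → K) (t : Fin 2 → K) :
    (letI := ul Q; (ndF d i).Realize v t) ↔ NdC d (t 0 ^ i * t 1) (Q 0) := by
  let _ := ul Q
  show (ndF d i).Realize v t ↔ _
  have hE : ∀ {n : ℕ} (t₁ t₂ : RT n) (v : Empty → K) (xs : Fin n → K),
      (eqF t₁ t₂).Realize v xs ↔
      t₁.realize (Sum.elim v xs) = t₂.realize (Sum.elim v xs) := realize_eqF Q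
  have hP : ∀ {n : ℕ} (t : RT n) (v : Empty → K) (xs : Fin n → K),
      (inP t).Realize v xs ↔ t.realize (Sum.elim v xs) ∈ Q 0 := realize_inP Q
  simp only [ndF, BoundedFormula.realize_all, BoundedFormula.realize_imp,
    BoundedFormula.realize_not, hP, hE, realize_mul, realize_powT, realize_var', realize_one]
  exact Iff.rfl

theorem realize_ndF0 (Q : Fin 1 → Set K) (d : ℕ) (v : Empty → K) (t : Fin 2 → K) :
    (letI := ul Q; (ndF0 d).Realize v t) ↔ NdC d (t 0) (Q 0) := by
  let _ := ul Q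
  show (ndF0 d).Realize v t ↔ _
  have hE : ∀ {n : ℕ} (t₁ t₂ : RT n) (v : Empty → K) (xs : Fin n → K),
      (eqF t₁ t₂).Realize v xs ↔
      t₁.realize (Sum.elim v xs) = t₂.realize (Sum.elim v xs) := realize_eqF Q
  have hP : ∀ {n : ℕ} (t : RT n) (v : Empty → K) (xs : Fin n → K),
      (inP t).Realize v xs ↔ t.realize (Sum.elim v xs) ∈ Q 0 := realize_inP Q
  simp only [ndF0, BoundedFormula.realize_all, BoundedFormula.realize_imp,
    BoundedFormula.realize_not, hP, hE, realize_mul, realize_powT, realize_var', realize_one]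
  exact Iff.rfl

theorem realize_regF0 (Q : Fin 1 → Set K) (d : ℕ) (v : Empty → K) (t : Fin 2 → K) :
    (letI := ul Q; (regF0 d).Realize v t) ↔ RegC d (t 0) (Q 0) := by
  let _ := ul Q
  show (regF0 d).Realize v t ↔ _
  have hE : ∀ {n : ℕ} (t₁ t₂ : RT n) (v : Empty → K) (xs : Fin n → K),
      (eqF t₁ t₂).Realize v xs ↔
      t₁.realize (Sum.elim v xs) = t₂.realize (Sum.elim v xs) := realize_eqF Q
  have hP : ∀ {n : ℕ} (t : RT n) (v : Empty → K) (xs : Fin n → K),
      (inP t).Realize v xs ↔ t.realize (Sum.elim v xs) ∈ Q 0 := realize_inP Q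
  simp only [regF0, BoundedFormula.realize_all, BoundedFormula.realize_imp,
    BoundedFormula.realize_ex, BoundedFormula.realize_inf,
    BoundedFormula.realize_not, hP, hE, realize_mul, realize_powT, realize_var', realize_one,
    realize_zero]
  exact Iff.rfl

theorem realize_regF1 (Q : Fin 1 → Set K) (d : ℕ) (v : Empty → K) (t : Fin 2 → K) :
    (letI := ul Q; (regF1 d).Realize v t) ↔ RegC d (t 1) (Q 0) := by
  let _ := ul Q
  show (regF1 d).Realize v t ↔ _
  have hE : ∀ {n : ℕ} (t₁ t₂ : RT n) (v : Empty → K) (xs : Fin n → K),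
      (eqF t₁ t₂).Realize v xs ↔
      t₁.realize (Sum.elim v xs) = t₂.realize (Sum.elim v xs) := realize_eqF Q
  have hP : ∀ {n : ℕ} (t : RT n) (v : Empty → K) (xs : Fin n → K),
      (inP t).Realize v xs ↔ t.realize (Sum.elim v xs) ∈ Q 0 := realize_inP Q
  simp only [regF1, BoundedFormula.realize_all, BoundedFormula.realize_imp,
    BoundedFormula.realize_ex, BoundedFormula.realize_inf,
    BoundedFormula.realize_not, hP, hE, realize_mul, realize_powT, realize_var', realize_one,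
    realize_zero]
  exact Iff.rfl

/-- The property `BrSet` is first order. -/
theorem brSet_transfer {K' : Type} [Field K'] [CompatibleRing K'] {d : ℕ} {t : Fin 2 → K}
    {t' : Fin 2 → K'} {P : Set K} {Q : Set K'} (hP : BrSet d (t 0) (t 1) P)
    (hS : SameC FirstOrder.Language.ring t t' P Q) : BrSet d (t' 0) (t' 1) Q := by
  obtain ⟨hS0, hS1⟩ := hS
  have hsen : ∀ φ : BF 0, (letI := ul (fun _ : Fin 1 => P); φ.Realize default default) ↔
      (letI := ul (fun _ : Fin 1 => Q); φ.Realize default default) := fun φ =>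
    (@elementarilyEquivalent_iff _ K K' (@sumStructure _ _ K _ (ul fun _ : Fin 1 => P))
      (@sumStructure _ _ K' _ (ul fun _ : Fin 1 => Q))).1 hS0 φ
  have h3 := (realize_vF (fun _ : Fin 1 => Q) default default).1
    ((hsen vF).1 ((realize_vF (fun _ : Fin 1 => P) default default).2
      ⟨hP.one, hP.add, hP.neg, hP.mul, hP.total⟩))
  refine ⟨h3.1, h3.2.1, h3.2.2.1, h3.2.2.2.1, h3.2.2.2.2, ?_, ?_, ?_, ?_⟩
  · exact (realize_neF (fun _ : Fin 1 => Q) 0 default t').1
      ((hS1 (neF 0)).1 ((realize_neF (fun _ : Fin 1 => P) 0 default t).2 hP.ne))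
  · exact (realize_ndF0 (fun _ : Fin 1 => Q) d default t').1
      ((hS1 (ndF0 d)).1 ((realize_ndF0 (fun _ : Fin 1 => P) d default t).2 hP.nd))
  · exact (realize_regF0 (fun _ : Fin 1 => Q) d default t').1
      ((hS1 (regF0 d)).1 ((realize_regF0 (fun _ : Fin 1 => P) d default t).2 hP.reg))
  · rcases hP.alt with h | ⟨hp, hs, hr, hn⟩
    · left
      exact (realize_sExt (fun _ : Fin 1 => Q) d default default).1
        ((hsen (sExt d)).1 ((realize_sExt (fun _ : Fin 1 => P) d default default).2 h))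
    · right
      refine ⟨hp, ?_, ?_, fun i => ?_⟩
      · exact (realize_neF (fun _ : Fin 1 => Q) 1 default t').1
          ((hS1 (neF 1)).1 ((realize_neF (fun _ : Fin 1 => P) 1 default t).2 hs))
      · exact (realize_regF1 (fun _ : Fin 1 => Q) d default t').1
          ((hS1 (regF1 d)).1 ((realize_regF1 (fun _ : Fin 1 => P) d default t).2 hr))
      · exact (realize_ndF (fun _ : Fin 1 => Q) d i default t').1
          ((hS1 (ndF d i)).1 ((realize_ndF (fun _ : Fin 1 => P) d i default t).2 (hn i)))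

end fo

/-- The conclusion of the starting result `FewBadPlaces`: for every `D` there is `N`, the same for all
fields elementarily equivalent to `K`, such that among any `N` pairwise incomparable places at least
one has a complete field of dimension at most one up to degree `D`. -/
def FewPlaces (K : Type) [Field K] [FirstOrder.Ring.CompatibleRing K] : Prop :=
  ∀ D : ℕ, ∃ N : ℕ, ∀ (K' : Type) [Field K'] [FirstOrder.Ring.CompatibleRing K'],
    FirstOrder.Language.ring.ElementarilyEquivalent K K' →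
    ∀ P : Fin N → Place K', (Pairwise fun i j => (P i).Incomparable (P j)) →
      ∃ i, DimLeOneUpTo (P i).F D

theorem fewPlaces_of (K : Type) [Field K] [FirstOrder.Ring.CompatibleRing K]
    (hK : NIPField K ∨ (∃ n, NIPnField n K) ∨ NTP2Field K) : FewPlaces K :=
  fun D => Pool.Agent.Results.MP_3554b5_lc.FewBadPlaces.result K hK D

theorem FewPlaces.congr {K K' : Type} [Field K] [FirstOrder.Ring.CompatibleRing K]
    [Field K'] [FirstOrder.Ring.CompatibleRing K'] (h : FewPlaces K)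
    (he : FirstOrder.Language.ring.ElementarilyEquivalent K K') : FewPlaces K' := fun D => by
  obtain ⟨N, hN⟩ := h D
  exact ⟨N, fun M _ _ hM => hN M (he.trans hM)⟩

/-- The valuation rings with these properties are definable. -/
theorem definable_of_brSet (hKu : KStm) (K : Type) [Field K] [FirstOrder.Ring.CompatibleRing K]
    (hK : FewPlaces K) {d : ℕ} (hd : 2 ≤ d) {t s : K}
    {Q : Set K} (hQ : BrSet d t s Q) :
    ∃ (p : ℕ) (ψ : FirstOrder.Language.ring.Formula (Fin 1 ⊕ Fin p)) (c : Fin p → K),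
      ∀ x : K, x ∈ Q ↔ ψ.Realize (Sum.elim (fun _ => x) c) := by
  obtain ⟨N, hN⟩ := hK d
  have hQ' : BrSet d ((![t, s] : Fin 2 → K) 0) ((![t, s] : Fin 2 → K) 1) Q := hQ
  refine kueker_const hKu FirstOrder.Language.ring K Q N 2 ![t, s] ?_
  intro M' _ _ t' Q' hQ2 hinj
  rcases Nat.eq_zero_or_pos N with rfl | hNpos
  · obtain ⟨i, -⟩ := hN K (by rw [elementarilyEquivalent_iff]; intro φ; rfl)
      (fun i => i.elim0) (fun i => i.elim0)
    exact i.elim0
  · have he := eqv_of_same (hQ2 ⟨0, hNpos⟩).1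
    have : FirstOrder.Language.Theory.field.Model M' := by
      have h1 : FirstOrder.Language.Theory.field.Model K := inferInstance
      exact he.theory_model_iff.1 h1
    let _ := FirstOrder.Field.fieldOfModelField M'
    let _ := FirstOrder.Field.compatibleRingOfModelField M'
    exact not_injective_br hd (hN M' he) (t' 0) (fun _ => t' 1) Q'
      (fun i => brSet_transfer hQ' (hQ2 i)) hinj

end Pool.Agent.K4H89.NV
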