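import Pool.Agent.K4H89.NV.Real
import Pool.Agent.K4H89.NV.Comp
import Pool.Agent.Results.MP_3554b5_lc.UnramifiedNorms

/-!
# The place of a valuation ring and a nonunit
-/

set_option autoImplicit false

namespace Pool.Agent.K4H89.NV

open NNReal Pool.Agent.TH686.NF Pool.Agent.W882.Nip3

section ovr

variable {K : Type} [Field K]

/-- A ring which contains a valuation ring. -/
def mkOver (O : ValuationSubring K) (S : Set K) (hO : ∀ x ∈ O, x ∈ S)
    (hadd : ∀ x ∈ S, ∀ y ∈ S, x + y ∈ S) (hmul : ∀ x ∈ S, ∀ y ∈ S, x * y ∈ S) :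
    ValuationSubring K where
  carrier := S
  mul_mem' := fun {x y} hx hy => hmul x hx y hy
  one_mem' := hO 1 O.one_mem
  add_mem' := fun {x y} hx hy => hadd x hx y hy
  zero_mem' := hO 0 O.zero_mem
  neg_mem' := fun {x} hx => by
    have h1 := hmul (-1) (hO _ (O.neg_mem _ O.one_mem)) x hx
    rwa [neg_one_mul] at h1
  mem_or_inv_mem' := fun x => (O.mem_or_inv_mem x).imp (hO x) (hO x⁻¹)

theorem mem_mkOver {O : ValuationSubring K} {S : Set K} {hO : ∀ x ∈ O, x ∈ S}
    {hadd : ∀ x ∈ S, ∀ y ∈ S, x + y ∈ S} {hmul : ∀ x ∈ S, ∀ y ∈ S, x * y ∈ S} {x : K} :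
    x ∈ mkOver O S hO hadd hmul ↔ x ∈ S := Iff.rfl

/-- The ring `O [1 / z]`. -/
def locRing (O : ValuationSubring K) (z : K) (hz : z ∈ O) : ValuationSubring K :=
  mkOver O {x | ∃ n : ℕ, z ^ n * x ∈ O} (fun x hx => ⟨0, by simpa using hx⟩)
    (by
      rintro x ⟨n, hn⟩ y ⟨m, hm⟩
      refine ⟨n + m, ?_⟩
      have e1 : z ^ (n + m) * (x + y) = z ^ m * (z ^ n * x) + z ^ n * (z ^ m * y) := by ring
      rw [e1]
      exact O.add_mem _ _ (O.mul_mem _ _ (pow_mem hz _) hn) (O.mul_mem _ _ (pow_mem hz _) hm))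
    (by
      rintro x ⟨n, hn⟩ y ⟨m, hm⟩
      refine ⟨n + m, ?_⟩
      have e1 : z ^ (n + m) * (x * y) = (z ^ n * x) * (z ^ m * y) := by ring
      rw [e1]
      exact O.mul_mem _ _ hn hm)

theorem mem_locRing {O : ValuationSubring K} {z : K} {hz : z ∈ O} {x : K} :
    x ∈ locRing O z hz ↔ ∃ n : ℕ, z ^ n * x ∈ O := Iff.rfl

theorem dvd_or (O : ValuationSubring K) (x y : K) :
    (∃ w ∈ O, y = x * w) ∨ ∃ w ∈ O, x = y * w := by
  by_cases hx : x = 0
  · exact Or.inr ⟨0, O.zero_mem, by rw [hx, mul_zero]⟩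
  by_cases hy : y = 0
  · exact Or.inl ⟨0, O.zero_mem, by rw [hy, mul_zero]⟩
  rcases O.mem_or_inv_mem (x / y) with h | h
  · exact Or.inr ⟨_, h, by field_simp⟩
  · exact Or.inl ⟨_, h, by field_simp⟩

/-- The largest ring over `O` in which `z` is not invertible. -/
def rkRing (O : ValuationSubring K) (z : K) (hz : z ∈ O) : ValuationSubring K :=
  mkOver O {x | ∀ n : ℕ, z * x ^ n ∈ O} (fun x hx n => O.mul_mem _ _ hz (pow_mem hx n))
    (by
      have key : ∀ x : K, (∀ n : ℕ, z * x ^ n ∈ O) → ∀ w ∈ O, ∀ n : ℕ, z * (x + x * w) ^ n ∈ O := by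
        intro x hx w hw n
        have e1 : z * (x + x * w) ^ n = (z * x ^ n) * (1 + w) ^ n := by
          rw [mul_assoc, ← mul_pow]
          congr 2
          ring
        rw [e1]
        exact O.mul_mem _ _ (hx n) (pow_mem (O.add_mem _ _ O.one_mem hw) n)
      intro x hx y hy
      rcases dvd_or O x y with ⟨w, hw, rfl⟩ | ⟨w, hw, rfl⟩
      · exact key x hx w hw
      · rw [add_comm]
        exact key y hy w hw)
    (by
      have key : ∀ x : K, (∀ n : ℕ, z * x ^ n ∈ O) → ∀ w ∈ O, ∀ n : ℕ, z * (x * (x * w)) ^ n ∈ O := by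
        intro x hx w hw n
        have e1 : z * (x * (x * w)) ^ n = (z * x ^ (2 * n)) * w ^ n := by
          rw [pow_mul, mul_assoc, ← mul_pow]
          congr 2
          ring
        rw [e1]
        exact O.mul_mem _ _ (hx _) (pow_mem hw n)
      intro x hx y hy
      rcases dvd_or O x y with ⟨w, hw, rfl⟩ | ⟨w, hw, rfl⟩
      · exact key x hx w hw
      · rw [mul_comm]
        exact key y hy w hw)

theorem mem_rkRing {O : ValuationSubring K} {z : K} {hz : z ∈ O} {x : K} :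
    x ∈ rkRing O z hz ↔ ∀ n : ℕ, z * x ^ n ∈ O := Iff.rfl

theorem le_locRing {O : ValuationSubring K} {z : K} {hz : z ∈ O} : O ≤ locRing O z hz :=
  fun x hx => ⟨0, by simpa using hx⟩

theorem le_rkRing {O : ValuationSubring K} {z : K} {hz : z ∈ O} : O ≤ rkRing O z hz :=
  fun _ hx n => O.mul_mem _ _ hz (pow_mem hx n)

theorem rk_le_loc {O : ValuationSubring K} {z : K} {hz : z ∈ O} :
    rkRing O z hz ≤ locRing O z hz := by
  intro x hx
  have h1 := (mem_rkRing.1 hx) 1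
  exact ⟨1, by simpa using h1⟩

/-- the elements of the maximal ideal of a larger ring lie in the smaller ring -/
theorem mem_of_residue_zero {O P : ValuationSubring K} (h : O ≤ P) {x : K} {hx : x ∈ P}
    (h0 : IsLocalRing.residue P ⟨x, hx⟩ = 0) : x ∈ O := by
  rcases O.mem_or_inv_mem x with h1 | h1
  · exact h1
  · by_cases hx0 : x = 0
    · rw [hx0]
      exact O.zero_mem
    · exfalso
      rw [IsLocalRing.residue_eq_zero_iff, IsLocalRing.mem_maximalIdeal] at h0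
      apply h0
      exact IsUnit.of_mul_eq_one ⟨x⁻¹, h h1⟩ (Subtype.ext (mul_inv_cancel₀ hx0))

/-- the image of a smaller valuation ring in the residue field of a larger one -/
def img (R P : ValuationSubring K) (hRP : R ≤ P) : ValuationSubring (IsLocalRing.ResidueField P) where
  carrier := {c | ∃ (x : K) (hx : x ∈ P), x ∈ R ∧ IsLocalRing.residue P ⟨x, hx⟩ = c}
  mul_mem' := by
    rintro _ _ ⟨x, hx, hxR, rfl⟩ ⟨y, hy, hyR, rfl⟩
    exact ⟨x * y, P.mul_mem _ _ hx hy, R.mul_mem _ _ hxR hyR, (map_mul (IsLocalRing.residue P) ⟨x, hx⟩ ⟨y, hy⟩)⟩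
  one_mem' := ⟨1, P.one_mem, R.one_mem, map_one _⟩
  add_mem' := by
    rintro _ _ ⟨x, hx, hxR, rfl⟩ ⟨y, hy, hyR, rfl⟩
    exact ⟨x + y, P.add_mem _ _ hx hy, R.add_mem _ _ hxR hyR, (map_add (IsLocalRing.residue P) ⟨x, hx⟩ ⟨y, hy⟩)⟩
  zero_mem' := ⟨0, P.zero_mem, R.zero_mem, map_zero _⟩
  neg_mem' := by
    rintro _ ⟨x, hx, hxR, rfl⟩
    exact ⟨-x, P.neg_mem _ hx, R.neg_mem _ hxR, (map_neg (IsLocalRing.residue P) ⟨x, hx⟩)⟩
  mem_or_inv_mem' := by
    intro c
    obtain ⟨⟨x, hx⟩, rfl⟩ := IsLocalRing.residue_surjective c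
    by_cases hc : IsLocalRing.residue P ⟨x, hx⟩ = 0
    · exact Or.inl ⟨0, P.zero_mem, R.zero_mem, by rw [hc]; exact map_zero _⟩
    · rcases R.mem_or_inv_mem x with h1 | h1
      · exact Or.inl ⟨x, hx, h1, rfl⟩
      · refine Or.inr ⟨x⁻¹, hRP h1, h1, ?_⟩
        apply eq_inv_of_mul_eq_one_left
        rw [← map_mul, ← map_one (IsLocalRing.residue P)]
        congr 1
        refine Subtype.ext (inv_mul_cancel₀ ?_)
        rintro rfl
        exact hc (map_zero (IsLocalRing.residue P))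

theorem mem_img {R P : ValuationSubring K} {hRP : R ≤ P} {x : K} {hx : x ∈ P} :
    IsLocalRing.residue P ⟨x, hx⟩ ∈ img R P hRP ↔ x ∈ R := by
  constructor
  · rintro ⟨y, hy, hyR, h⟩
    have h1 : IsLocalRing.residue P (⟨x - y, P.sub_mem hx hy⟩) = 0 := by
      have e1 : (⟨x - y, P.sub_mem hx hy⟩ : P) = ⟨x, hx⟩ - ⟨y, hy⟩ := rfl
      rw [e1, map_sub, h, sub_self]
    have h2 := R.add_mem _ _ (mem_of_residue_zero hRP h1) hyR
    rwa [sub_add_cancel] at h2
  · intro h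
    exact ⟨x, hx, h, rfl⟩

theorem residue_inv {P : ValuationSubring K} {x : K} (hx : x ∈ P) (hx' : x⁻¹ ∈ P) (h0 : x ≠ 0) :
    (IsLocalRing.residue P ⟨x, hx⟩)⁻¹ = IsLocalRing.residue P ⟨x⁻¹, hx'⟩ := by
  symm
  apply eq_inv_of_mul_eq_one_left
  rw [← map_mul, ← map_one (IsLocalRing.residue P)]
  congr 1
  exact Subtype.ext (inv_mul_cancel₀ h0)

theorem inv_mem_of_residue_ne_zero {P : ValuationSubring K} {x : K} {hx : x ∈ P}
    (h : IsLocalRing.residue P ⟨x, hx⟩ ≠ 0) : x⁻¹ ∈ P := by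
  rcases P.mem_or_inv_mem x⁻¹ with h1 | h1
  · exact h1
  · by_contra h2
    apply h
    rw [IsLocalRing.residue_eq_zero_iff, IsLocalRing.mem_maximalIdeal, mem_nonunits_iff]
    rintro ⟨u, hu⟩
    apply h2
    have h3 : ((u : P) : K) * (((u⁻¹ : Pˣ) : P) : K) = 1 := by
      rw [← MulMemClass.coe_mul, Units.mul_inv]
      rfl
    rw [hu] at h3
    have h4 : (((u⁻¹ : Pˣ) : P) : K) = x⁻¹ := eq_inv_of_mul_eq_one_right h3
    rw [← h4]
    exact ((u⁻¹ : Pˣ) : P).2

end ovr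

section main

variable {K : Type} [Field K] (O : ValuationSubring K) (z : K)

/-- The place with values in a complete field which belongs to a nonunit of a valuation ring, and
the valuation ring of the complete field. -/
theorem exists_place (hz : z ∈ O) (hz0 : z ≠ 0) (hzn : z⁻¹ ∉ O) :
    ∃ (P : Place K) (V : ValuationSubring P.F),
      (∀ (x : K) (h : x ∈ P.O), P.res ⟨x, h⟩ ∈ V ↔ x ∈ O) ∧
      (∀ y : P.F, y ≠ 0 → ∃ x : P.O, V.valuation (y - P.res x) < V.valuation y) ∧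
      (∀ w ∈ O, P.Small (z * w)) ∧ O ≤ P.O ∧ z⁻¹ ∈ P.O := by
  set R := locRing O z hz with hR
  have hOR : O ≤ R := le_locRing
  set A := rkRing O z hz with hA
  have hOA : O ≤ A := le_rkRing
  have hAR : A ≤ R := rk_le_loc
  have hzR : z ∈ R := hOR hz
  have hziR : z⁻¹ ∈ R := ⟨1, by rw [pow_one, mul_inv_cancel₀ hz0]; exact O.one_mem⟩
  have hinvz := residue_inv hzR hziR hz0
  have hinvzA : z⁻¹ ∉ A := by
    intro h
    have h1 := (mem_rkRing.1 h) 2
    apply hzn
    have e1 : z * z⁻¹ ^ 2 = z⁻¹ := by field_simp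
    rwa [e1] at h1
  have hzbar0 : IsLocalRing.residue R ⟨z, hzR⟩ ≠ 0 := by
    intro h0
    rw [h0, inv_zero] at hinvz
    exact hinvzA (mem_of_residue_zero hAR hinvz.symm)
  have hpow : ∀ (x : K) (hx : x ∈ R) (n : ℕ), IsLocalRing.residue R ⟨x, hx⟩ ^ n =
      IsLocalRing.residue R ⟨x ^ n, pow_mem hx n⟩ := by
    intro x hx n
    rw [← map_pow]
    rfl
  obtain ⟨v, hv⟩ := exists_real (img A R hAR) (IsLocalRing.residue R ⟨z, hzR⟩) hzbar0
    (by
      rw [hinvz, mem_img]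
      exact hinvzA)
    (by
      intro c
      obtain ⟨⟨x, hx⟩, rfl⟩ := IsLocalRing.residue_surjective c
      obtain ⟨n, hn⟩ := mem_locRing.1 hx
      refine ⟨n, ?_⟩
      rw [hpow, ← map_mul]
      exact mem_img.2 (hOA hn))
    (by
      intro c hc0 hc
      obtain ⟨⟨x, hx⟩, rfl⟩ := IsLocalRing.residue_surjective c
      have hx' := inv_mem_of_residue_ne_zero hc0
      have hx0 : x ≠ 0 := by
        rintro rfl
        exact hc0 (map_zero (IsLocalRing.residue R))
      rw [residue_inv hx hx' hx0, mem_img] at hc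
      rw [mem_rkRing] at hc
      push Not at hc
      obtain ⟨n, hn⟩ := hc
      refine ⟨n, ?_⟩
      rw [hinvz, hpow, ← map_mul]
      refine mem_img.2 (hOA ?_)
      rcases O.mem_or_inv_mem (z⁻¹ * x ^ n) with h | h
      · exact h
      · exfalso
        apply hn
        rw [mul_inv, inv_inv, ← inv_pow] at h
        exact h)
  have h1 : ∀ c ∈ img O R hOR, v c ≤ 1 := by
    rintro _ ⟨x, hx, hxO, rfl⟩
    exact (hv _).2 (mem_img.2 (hOA hxO))
  have h2 : ∀ c, v c < 1 → c ∈ img O R hOR := by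
    intro c hc
    by_cases hc0 : c = 0
    · rw [hc0]
      exact ValuationSubring.zero_mem _
    obtain ⟨⟨x, hx⟩, rfl⟩ := IsLocalRing.residue_surjective c
    have hx' := inv_mem_of_residue_ne_zero hc0
    have hx0 : x ≠ 0 := by
      rintro rfl
      exact hc0 (map_zero (IsLocalRing.residue R))
    rw [mem_img]
    rcases O.mem_or_inv_mem x with h | h
    · exact h
    · exfalso
      have h3 : v (IsLocalRing.residue R ⟨x⁻¹, hx'⟩) ≤ 1 := (hv _).2 (mem_img.2 (hOA h))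
      rw [← residue_inv hx hx' hx0, map_inv₀] at h3
      have h4 : v (IsLocalRing.residue R ⟨x, hx⟩) ≠ 0 := (Valuation.ne_zero_iff _).2 hc0
      have h5 : 1 < (v (IsLocalRing.residue R ⟨x, hx⟩))⁻¹ :=
        (one_lt_inv₀ (pos_iff_ne_zero.2 h4)).2 hc
      exact absurd h3 (not_le.2 h5)
  have hvz : 1 < v (IsLocalRing.residue R ⟨z⁻¹, hziR⟩) := by
    by_contra hcon
    rw [not_lt, hv, mem_img] at hcon
    exact hinvzA hcon
  have hnt : ∃ a, 1 < v a := ⟨_, hvz⟩
  let VP : Pool.Agent.Results.MP_3554b5_lc.UnramifiedNorms.ValuedPlace K :=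
    { O := R
      κ := IsLocalRing.ResidueField R
      field := inferInstance
      π := IsLocalRing.residue R
      surjective := IsLocalRing.residue_surjective
      v := v }
  refine ⟨Pool.Agent.Results.MP_3554b5_lc.UnramifiedNorms.toPlace VP hnt,
    compRing v (img O R hOR) h1, ?_, ?_, ?_, hOR, hziR⟩
  · intro x h
    change emb v (IsLocalRing.residue R ⟨x, h⟩) ∈ compRing v (img O R hOR) h1 ↔ x ∈ O
    rw [emb_mem_compRing h2, mem_img]
  · intro y hy
    obtain ⟨c, hc⟩ := near_compRing (v := v) (W := img O R hOR) (h1 := h1) y hy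
    obtain ⟨x, rfl⟩ := IsLocalRing.residue_surjective c
    exact ⟨x, hc⟩
  · intro w hw
    refine ⟨R.mul_mem _ _ hzR (hOR hw), ?_⟩
    change ‖emb v (IsLocalRing.residue R ⟨z * w, _⟩)‖ < 1
    rw [norm_emb]
    have e1 : IsLocalRing.residue R ⟨z * w, R.mul_mem _ _ hzR (hOR hw)⟩ =
        IsLocalRing.residue R ⟨z, hzR⟩ * IsLocalRing.residue R ⟨w, hOR hw⟩ := by
      rw [← map_mul]
      rfl
    rw [e1, map_mul]
    have h3 : v (IsLocalRing.residue R ⟨w, hOR hw⟩) ≤ 1 := (hv _).2 (mem_img.2 (hOA hw))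
    have h4 : v (IsLocalRing.residue R ⟨z, hzR⟩) < 1 := by
      rw [← hinvz, map_inv₀] at hvz
      exact (one_lt_inv₀ (pos_iff_ne_zero.2 ((Valuation.ne_zero_iff _).2 hzbar0))).1 hvz
    have h5 : v (IsLocalRing.residue R ⟨z, hzR⟩) * v (IsLocalRing.residue R ⟨w, hOR hw⟩) < 1 := by
      calc _ ≤ v (IsLocalRing.residue R ⟨z, hzR⟩) * 1 := by gcongr
        _ < 1 := by rwa [mul_one]
    exact_mod_cast h5

end main

end Pool.Agent.K4H89.NV
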