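import Mathlib

/-!
# Rank one valuation rings and real valuations
-/

set_option autoImplicit false

namespace Pool.Agent.K4H89.NV

open NNReal

theorem arch {κ : Type} [Field κ] (B : ValuationSubring κ) (z : κ)
    (h1 : ∀ x : κ, ∃ n : ℕ, z ^ n * x ∈ B)
    (h2 : ∀ x : κ, x ≠ 0 → x⁻¹ ∉ B → ∃ n : ℕ, z⁻¹ * x ^ n ∈ B) (hz0 : z ≠ 0) :
    MulArchimedean B.ValueGroup := by
  refine ⟨fun x y hy => ?_⟩
  obtain ⟨a, rfl⟩ := B.valuation_surjective x
  obtain ⟨b, rfl⟩ := B.valuation_surjective y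
  have hb : b ∉ B := fun h => absurd hy (not_lt.2 ((B.valuation_le_one_iff b).2 h))
  have hb0 : b ≠ 0 := by
    rintro rfl
    exact hb B.zero_mem
  obtain ⟨m, hm⟩ := h1 a
  obtain ⟨n, hn⟩ := h2 b⁻¹ (inv_ne_zero hb0) (by rwa [inv_inv])
  refine ⟨n * m, ?_⟩
  have h3 : z ^ m * a * (z⁻¹ * b⁻¹ ^ n) ^ m ∈ B := B.mul_mem _ _ hm (pow_mem hn _)
  have h4 : z ^ m * a * (z⁻¹ * b⁻¹ ^ n) ^ m = a * (b ^ (n * m))⁻¹ := by
    rw [mul_pow, ← pow_mul, inv_pow, inv_pow]
    field_simp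
  rw [h4] at h3
  have h5 := (B.valuation_le_one_iff _).2 h3
  rw [map_mul, map_inv₀, map_pow] at h5
  have h6 : B.valuation b ^ (n * m) ≠ 0 := pow_ne_zero _ ((B.valuation.ne_zero_iff).2 hb0)
  calc B.valuation a = B.valuation a * (B.valuation b ^ (n * m))⁻¹ * B.valuation b ^ (n * m) := by
        rw [mul_assoc, inv_mul_cancel₀ h6, mul_one]
    _ ≤ 1 * B.valuation b ^ (n * m) := by gcongr
    _ = _ := one_mul _

/-- A valuation ring of rank one belongs to a valuation with real values. -/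
theorem exists_real {κ : Type} [Field κ] (B : ValuationSubring κ) (z : κ) (hz0 : z ≠ 0)
    (hzn : z⁻¹ ∉ B) (h1 : ∀ x : κ, ∃ n : ℕ, z ^ n * x ∈ B)
    (h2 : ∀ x : κ, x ≠ 0 → x⁻¹ ∉ B → ∃ n : ℕ, z⁻¹ * x ^ n ∈ B) :
    ∃ v : Valuation κ ℝ≥0, ∀ x, v x ≤ 1 ↔ x ∈ B := by
  have ha := arch B z h1 h2 hz0
  have hnt : B.valuation.IsNontrivial := by
    refine ⟨z, (B.valuation.ne_zero_iff).2 hz0, fun h => hzn ?_⟩
    rw [← B.valuation_le_one_iff, map_inv₀, h, inv_one]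
  have h' : MulArchimedean (MonoidWithZeroHom.ValueGroup₀ (.ofClass B.valuation)) :=
    MulArchimedean.comap (MonoidWithZeroHom.ValueGroup₀.embedding).toMonoidHom
      MonoidWithZeroHom.ValueGroup₀.embedding_strictMono
  obtain ⟨hR⟩ := Valuation.nonempty_rankOne_iff_mulArchimedean.2 h'
  have hs : StrictMono (Valuation.RankOne.hom B.valuation) := Valuation.RankOne.strictMono _
  refine ⟨B.valuation.restrict.map (Valuation.RankOne.hom B.valuation) hs.monotone, fun x => ?_⟩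
  rw [Valuation.map_apply]
  have e1 : (1 : ℝ≥0) = Valuation.RankOne.hom B.valuation 1 := (map_one _).symm
  rw [e1, hs.le_iff_le, ← B.valuation_le_one_iff]
  exact Valuation.restrict_le_one_iff B.valuation

end Pool.Agent.K4H89.NV
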